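import Mathlib

/-!
# MP_fa3f7f_ag: minimal log discrepancies of singularities

Definitions for a closed point `x` of a normal affine variety `X` over `ℂ` with function field `K`:
divisorial valuations of `K`, the order of a rational differential form along a divisorial
valuation, triples `(X, B, ∏_j 𝔞_j^{r_j})`, log discrepancies and the minimal log discrepancy at
`x`.
-/

namespace MldX

noncomputable section

/-! ### divisorial valuations -/

/-- A divisorial valuation of the function field `K` of a variety of dimension `n` over `ℂ` (a prime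
divisor over the variety): a valuation with value group `ℤ`, trivial on `ℂ`, whose residue field has
transcendence degree `n - 1`: there are `n - 1` elements of `K` every nonzero polynomial of which has
order `0`. (The value of `ord` at `0` is not used; it is `0` by convention.) -/
structure DivVal (n : ℕ) (K : Type) [Field K] [Algebra ℂ K] where
  /-- the order along the divisor -/
  ord : K → ℤ
  ord_zero : ord 0 = 0
  ord_mul : ∀ a b, a ≠ 0 → b ≠ 0 → ord (a * b) = ord a + ord b
  ord_add : ∀ a b, a ≠ 0 → b ≠ 0 → a + b ≠ 0 → min (ord a) (ord b) ≤ ord (a + b)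
  ord_const : ∀ c : ℂ, ord (algebraMap ℂ K c) = 0
  unif : ∃ t, t ≠ 0 ∧ ord t = 1
  res : ∃ u : Fin (n - 1) → K, ∀ p : MvPolynomial (Fin (n - 1)) ℂ, p ≠ 0 →
    MvPolynomial.aeval u p ≠ 0 ∧ ord (MvPolynomial.aeval u p) = 0

section Forms

variable {n : ℕ} {K : Type} [Field K] [Algebra ℂ K]

/-- Functions of `n` derivations of `K`. The rational differential forms of degree `n` are the
functions `dform g a` below. -/
abbrev Forms (n : ℕ) (K : Type) [Field K] [Algebra ℂ K] : Type := (Fin n → Derivation ℂ K K) → K

/-- The form `g da₁ ∧ … ∧ daₙ`; its value on the derivations `D₁, …, Dₙ` is `g det (D_i a_j)`. -/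
def dform (g : K) (a : Fin n → K) : Forms n K := fun D => g * Matrix.det fun i j => D i (a j)

/-- The forms which are regular along the divisor: the sums of forms `g da₁ ∧ … ∧ daₙ` where
`g, a₁, …, aₙ` have nonnegative order along the divisor. -/
def DivVal.regForms (v : DivVal n K) : AddSubgroup (Forms n K) :=
  AddSubgroup.closure {η | ∃ (g : K) (a : Fin n → K), 0 ≤ v.ord g ∧ (∀ i, 0 ≤ v.ord (a i)) ∧
    η = dform g a}

/-- The order of a form `ω ≠ 0` along the divisor: the largest `k` such that `ω = g η` with
`ord g = k` and `η` regular along the divisor. -/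
def DivVal.formOrd (v : DivVal n K) (ω : Forms n K) : ℤ :=
  sSup {k : ℤ | ∃ g : K, g ≠ 0 ∧ v.ord g = k ∧ ∃ η ∈ v.regForms, ∀ D, ω D = g * η D}

end Forms

/-! ### germs -/

/-- A closed point `x` of a normal affine variety `X` of dimension `n` over `ℂ`. -/
structure Germ (n : ℕ) where
  /-- the function field -/
  K : Type
  /-- it is a field -/
  fieldK : Field K
  /-- over `ℂ` -/
  algK : Algebra ℂ K
  /-- the ring of regular functions on `X` -/
  R : Subalgebra ℂ K
  /-- it is finitely generated -/
  fg : R.FG
  /-- `K` is its field of fractions -/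
  frac : ∀ a : K, ∃ r ∈ R, ∃ s ∈ R, s ≠ 0 ∧ a * s = r
  /-- `X` is normal -/
  normal : ∀ a : K, IsIntegral R a → a ∈ R
  /-- the dimension -/
  trdeg : Algebra.trdeg ℂ K = n
  /-- the ideal of the point `x` -/
  m : Ideal R
  /-- it is a maximal ideal -/
  max : m.IsMaximal

attribute [instance] Germ.fieldK Germ.algK Germ.max

variable {n : ℕ}

/-- The valuation has a centre on `X`: the regular functions have nonnegative orders. -/
def Germ.Over (X : Germ n) (v : DivVal n X.K) : Prop := ∀ a : X.R, 0 ≤ v.ord a

/-- The centre of the valuation on `X` is a subvariety which contains `x`: the regular functions have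
nonnegative orders, those which do not vanish at `x` have order `0`. -/
def Germ.Through (X : Germ n) (v : DivVal n X.K) : Prop :=
  X.Over v ∧ ∀ a : X.R, a ∉ X.m → v.ord a = 0

/-- The centre of the valuation is `x`: the regular functions have nonnegative orders, those which
vanish at `x` have positive order. -/
def Germ.At (X : Germ n) (v : DivVal n X.K) : Prop :=
  X.Over v ∧ ∀ a : X.R, a ∈ X.m → (a : X.K) ≠ 0 → 0 < v.ord a

/-- The centre of the valuation on `X` is the zero set of `P`. -/
def Germ.HasCentre (X : Germ n) (v : DivVal n X.K) (P : Ideal X.R) : Prop :=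
  X.Over v ∧ ∀ a : X.R, a ∈ P ↔ (a : X.K) = 0 ∨ 0 < v.ord a

/-- `v` is the order along the prime divisor of `X` with the prime ideal `P`. -/
def Germ.IsOrdAlong (X : Germ n) (v : DivVal n X.K) (P : Ideal X.R) : Prop :=
  P.IsPrime ∧ P.height = 1 ∧ X.HasCentre v P

/-- The ideal is not zero. -/
def Germ.IsNonzero (X : Germ n) (I : Ideal X.R) : Prop := ∃ b ∈ I, (b : X.K) ≠ 0

/-- The order of a nonzero ideal along a valuation: the least order of its nonzero elements. -/
def idealOrd {X : Germ n} (v : DivVal n X.K) (I : Ideal X.R) : ℤ :=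
  sInf {k : ℤ | ∃ a ∈ I, (a : X.K) ≠ 0 ∧ v.ord a = k}

/-! ### triples -/

/-- A triple `(X, B, ∏_j 𝔞_j^{r_j})` near `x`: an `ℝ`-divisor `B` such that `K_X + B` is `ℝ`-Cartier
at `x`, finitely many nonzero ideals `𝔞_j` and real numbers `r_j ≥ 0`. The divisor `B` is given by a
presentation `K_X + B = -∑ c_i div(f_i)` near `x`, `K_X = div(ω)`. -/
structure Triple (X : Germ n) where
  /-- a rational differential form -/
  ω : Forms n X.K
  form : ∃ (g : X.K) (a : Fin n → X.K), ω = dform g a
  ω_ne : ω ≠ 0
  /-- the index set of the functions `f_i` -/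
  I : Type
  finI : Fintype I
  /-- the functions -/
  f : I → X.K
  f_ne : ∀ i, f i ≠ 0
  /-- their coefficients -/
  c : I → ℝ
  /-- the index set of the ideals -/
  J : Type
  finJ : Fintype J
  /-- the ideals -/
  a : J → Ideal X.R
  /-- they are not zero -/
  a_ne : ∀ j, X.IsNonzero (a j)
  /-- their exponents -/
  r : J → ℝ
  r_nonneg : ∀ j, 0 ≤ r j

attribute [instance] Triple.finI Triple.finJ

variable {X : Germ n}

/-- The log discrepancy of the divisor over `X` with respect to `(X, B)`: one plus the order along
the divisor of `K - π^*(K_X + B)`. -/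
def Triple.logDisc (T : Triple X) (v : DivVal n X.K) : ℝ :=
  1 + v.formOrd T.ω + ∑ i, T.c i * v.ord (T.f i)

/-- The log discrepancy of the divisor over `X` with respect to the triple. -/
def Triple.disc (T : Triple X) (v : DivVal n X.K) : ℝ :=
  T.logDisc v - ∑ j, T.r j * idealOrd v (T.a j)

/-- The coefficient of the prime divisor with the ideal `P ⊆ 𝔪_x` in `B` is `b`. -/
def Triple.Coeff (T : Triple X) (P : Ideal X.R) (b : ℝ) : Prop :=
  P ≤ X.m ∧ ∃ v : DivVal n X.K, X.IsOrdAlong v P ∧ T.logDisc v = 1 - b

/-- `B` is effective near `x`. -/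
def Triple.Effective (T : Triple X) : Prop := ∀ P b, T.Coeff P b → 0 ≤ b

/-- `B = 0` near `x`. -/
def Triple.NoBoundary (T : Triple X) : Prop := ∀ P b, T.Coeff P b → b = 0

/-- The nonzero coefficients of `B` and the nonzero exponents of the ideals belong to `S`. -/
def Triple.CoeffIn (T : Triple X) (S : Set ℝ) : Prop :=
  (∀ P b, T.Coeff P b → b ≠ 0 → b ∈ S) ∧ ∀ j, T.r j ≠ 0 → T.r j ∈ S

/-- The triple is log canonical at `x`. -/
def Triple.LC (T : Triple X) : Prop := ∀ v, X.Through v → 0 ≤ T.disc v

/-- The minimal log discrepancy at `x`: the infimum of the log discrepancies of the divisors over `X`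
with centre `x`. -/
def Triple.mld (T : Triple X) : ℝ := sInf {a : ℝ | ∃ v, X.At v ∧ T.disc v = a}

/-! ### torus actions -/

/-- An effective action of the torus `(ℂ^*)^m` on `X`: a grading of the ring `R` of regular functions
by the group `ℤ^m` of characters, whose weights generate `ℤ^m`. -/
structure TorusAction (X : Germ n) (m : ℕ) where
  /-- the regular functions of weight `u` -/
  gr : (Fin m → ℤ) → Submodule ℂ X.R
  /-- `R` is the direct sum of the weight spaces, and the weights are additive -/
  graded : GradedAlgebra gr
  /-- the action is effective -/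
  effective : AddSubgroup.closure {u | gr u ≠ ⊥} = ⊤

/-- The regular function is semi-invariant. -/
def TorusAction.SemiInv {m : ℕ} (A : TorusAction X m) (a : X.R) : Prop := ∃ u, a ∈ A.gr u

/-- The ideal is invariant: it is generated by semi-invariant functions. -/
def TorusAction.Inv {m : ℕ} (A : TorusAction X m) (I : Ideal X.R) : Prop :=
  ∃ s : Set X.R, (∀ a ∈ s, A.SemiInv a) ∧ I = Ideal.span s

/-- The triple is invariant: the components of `B` and the ideals are invariant. -/
def TorusAction.InvTriple {m : ℕ} (A : TorusAction X m) (T : Triple X) : Prop :=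
  (∀ P b, T.Coeff P b → b ≠ 0 → A.Inv P) ∧ ∀ j, A.Inv (T.a j)

end

end MldX
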