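import Pool.Agent.MldX.Bridge

/-!
# Comparison of the two sets of definitions: from the old to the new ones
-/

namespace MldX

noncomputable section

section Field

variable {n : ℕ} {K : Type} [Field K] [Algebra ℂ K]

/-- every form is `g da₁ ∧ … ∧ daₙ` -/
theorem exists_dforms (h : Algebra.trdeg ℂ K = (n : Cardinal)) (ω : MldGeo.Forms n K) :
    ∃ (g : K) (a : Fin n → K), ω = g • MldGeo.dforms a := by
  classical
  obtain ⟨ι, x, hx⟩ := exists_isTranscendenceBasis' ℂ K
  have hc : Cardinal.mk ι = n := by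
    rw [← h]
    exact hx.cardinalMk_eq_trdeg
  have hfin : Finite ι := by
    rw [← Cardinal.lt_aleph0_iff_finite, hc]
    exact Cardinal.natCast_lt_aleph0
  letI := Fintype.ofFinite ι
  have hcard : Fintype.card ι = n := by
    have := Cardinal.mk_fintype ι
    rw [this] at hc
    exact_mod_cast hc
  obtain ⟨f⟩ : Nonempty (Fin n ≃ ι) := ⟨(Fintype.equivFinOfCardEq hcard).symm⟩
  have hind : AlgebraicIndependent ℂ (x ∘ f) := hx.1.comp f f.injective
  obtain ⟨h1, h2⟩ := MldGeo.t_TBAS h (x ∘ f) hind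
  let e : Module.Basis (Fin n) K Ω[K⁄ℂ] := Module.Basis.mk h1 (by rw [h2])
  obtain ⟨g, hg⟩ := MldGeo.FRM.exists_smul e ω
  refine ⟨g, x ∘ f, ?_⟩
  rw [hg]
  unfold MldGeo.dforms
  congr 2
  funext i
  simp [e]

end Field

variable {n : ℕ} {X : Germ n}

/-- The triple in the sense of `MldX`. -/
def Triple.ofOld (T : MldGeo.Triple X.old) : Triple X where
  ω := ev T.ω
  form := by
    obtain ⟨g, a, h⟩ := exists_dforms X.trdeg T.ω
    exact ⟨g, a, by rw [h, ev_dform]⟩
  ω_ne h := T.ω_ne (ev_injective X.trdeg (by rw [h, map_zero]))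
  I := T.I
  finI := T.finI
  f := T.f
  f_ne := T.f_ne
  c := T.c
  J := T.J
  finJ := T.finJ
  a := T.a
  a_ne j := (isNonzero_iff _).2 (T.a_ne j)
  r := T.r
  r_nonneg := T.r_nonneg

theorem Triple.old_ω (T : Triple X) : ev T.old.ω = T.ω := (exists_form T).choose_spec.2

theorem Triple.old_ofOld (T : MldGeo.Triple X.old) : (ofOld T).old = T := by
  have h : (ofOld T).old.ω = T.ω := ev_injective X.trdeg (by rw [Triple.old_ω]; rfl)
  cases T
  unfold Triple.old
  congr 1

theorem Triple.ofOld_old (T : Triple X) : ofOld T.old = T := by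
  have h := T.old_ω
  cases T
  unfold Triple.ofOld
  congr 1

theorem Triple.ofOld_mld (T : MldGeo.Triple X.old) : (ofOld T).mld = T.mld := by
  rw [← Triple.old_mld, Triple.old_ofOld]

theorem Triple.ofOld_disc (T : MldGeo.Triple X.old) (v : DivVal n X.K) :
    (ofOld T).disc v = T.disc v.old := by
  rw [← Triple.old_disc, Triple.old_ofOld]

theorem Triple.ofOld_logDisc (T : MldGeo.Triple X.old) (v : DivVal n X.K) :
    (ofOld T).logDisc v = T.logDisc v.old := by
  rw [← Triple.old_logDisc, Triple.old_ofOld]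

theorem Triple.ofOld_coeff (T : MldGeo.Triple X.old) (P : Ideal X.R) (b : ℝ) :
    (ofOld T).Coeff P b ↔ T.Coeff P b := by
  rw [← Triple.old_coeff, Triple.old_ofOld]

theorem Triple.ofOld_effective (T : MldGeo.Triple X.old) :
    (ofOld T).Effective ↔ T.Effective := by
  rw [← Triple.old_effective, Triple.old_ofOld]

theorem Triple.ofOld_noBoundary (T : MldGeo.Triple X.old) :
    (ofOld T).NoBoundary ↔ T.NoBoundary := by
  rw [← Triple.old_noBoundary, Triple.old_ofOld]

theorem Triple.ofOld_coeffIn (T : MldGeo.Triple X.old) (S : Set ℝ) :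
    (ofOld T).CoeffIn S ↔ T.CoeffIn S := by
  rw [← Triple.old_coeffIn, Triple.old_ofOld]

theorem Triple.ofOld_lc (T : MldGeo.Triple X.old) : (ofOld T).LC ↔ T.LC := by
  rw [← Triple.old_lc, Triple.old_ofOld]

/-! ### germs -/

/-- The germ in the sense of `MldX`. -/
@[reducible] def Germ.ofOld (X : MldGeo.Germ n) : Germ n :=
  ⟨X.K, X.fieldK, X.algK, X.R, X.fg, X.frac, X.normal, X.trdeg, X.m, X.max⟩

theorem Germ.old_ofOld (X : MldGeo.Germ n) : (Germ.ofOld X).old = X := rfl

theorem Germ.ofOld_old (X : Germ n) : Germ.ofOld X.old = X := rfl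

/-- The torus action in the sense of `MldX`. -/
def TorusAction.ofOld {m : ℕ} (A : MldG.TorusAction X.old m) : TorusAction X m :=
  ⟨A.gr, A.graded, A.effective⟩

theorem TorusAction.ofOld_inv {m : ℕ} (A : MldG.TorusAction X.old m) (I : Ideal X.R) :
    (TorusAction.ofOld A).Inv I ↔ A.Inv I := Iff.rfl

theorem TorusAction.ofOld_invTriple {m : ℕ} (A : MldG.TorusAction X.old m)
    (T : MldGeo.Triple X.old) :
    (TorusAction.ofOld A).InvTriple (Triple.ofOld T) ↔ A.InvTriple T :=
  and_congr (forall_congr' fun P => forall_congr' fun b =>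
    imp_congr (Triple.ofOld_coeff T P b) Iff.rfl) Iff.rfl

end

end MldX
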