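import Pool.Agent.MldX.SGDefs

/-!
# Singularities without boundary: sets of minimal log discrepancies
-/

namespace MldX

open MvPolynomial MldGap

noncomputable section

variable {n : ℕ}

/-- The numbers `1, 3, 26, 1518, 3185826, …`: `L (L³ + L² + 1)`, where `L = 1, 2, 6, 42, …` is a
Sylvester number minus one (the first number is `1`). -/
def freeGap : ℕ → ℕ
  | 0 => 1
  | k + 1 => (sylvester k - 1) * ((sylvester k - 1) ^ 3 + (sylvester k - 1) ^ 2 + 1)

/-- The minimal log discrepancies of the toric singularities of dimension `n` at closed points
(without boundary): the torus of dimension `n` acts effectively on `X`, `x` is any closed point. -/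
def toricFreeMlds (n : ℕ) : Set ℝ :=
  {μ | ∃ (X : Germ n) (_ : TorusAction X n) (T : Triple X), IsEmpty T.J ∧ T.NoBoundary ∧
    T.mld = μ}

/-- The minimal log discrepancies of the quotient singularities `ℂⁿ / G` (without boundary), `G` a
finite group of linear maps, at the image of the origin. -/
def quotientFreeMlds (n : ℕ) : Set ℝ :=
  {μ | ∃ (G : Subgroup (GL (Fin n) ℂ)) (X : Germ n) (T : Triple X), Finite G ∧
    T.IsLogQuotient G ∧ T.NoBoundary ∧ T.mld = μ}

/-- The total minimal log discrepancy at `x`: the infimum of the log discrepancies of the divisors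
over `X` whose centre contains `x`. -/
def Triple.totalMld {X : Germ n} (T : Triple X) : ℝ :=
  sInf {a : ℝ | ∃ v, X.Through v ∧ T.disc v = a}

/-- The total minimal log discrepancies of the toric singularities of dimension `n` (without
boundary): the torus of dimension `n` acts effectively on `X`, `x` is any closed point. -/
def toricTotalMlds (n : ℕ) : Set ℝ :=
  {μ | ∃ (X : Germ n) (_ : TorusAction X n) (T : Triple X), IsEmpty T.J ∧ T.NoBoundary ∧
    T.totalMld = μ}

/-- The total minimal log discrepancies of the quotient singularities `ℂⁿ / G` (without boundary),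
`G` a finite group of linear maps. -/
def quotientTotalMlds (n : ℕ) : Set ℝ :=
  {μ | ∃ (G : Subgroup (GL (Fin n) ℂ)) (X : Germ n) (T : Triple X), Finite G ∧
    T.IsLogQuotient G ∧ T.NoBoundary ∧ T.totalMld = μ}

end

end MldX
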