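import Pool.Agent.MldX.Defs

/-!
# MP_fa3f7f_ag: minimal log discrepancies along subvarieties
-/

set_option autoImplicit false

namespace MldX

noncomputable section

variable {n : ℕ} {X : Germ n}

/-- The minimal log discrepancy along the subvariety with the prime ideal `P`: the infimum of the log
discrepancies of the divisors over `X` whose centre is this subvariety. (For `P = 0` there are no such
divisors and the value is `0`.) -/
def Triple.mldAlong (T : Triple X) (P : Ideal X.R) : ℝ :=
  sInf {a : ℝ | ∃ v, X.HasCentre v P ∧ T.disc v = a}

/-- The dimension of the subvariety with the prime ideal `P`: the transcendence degree over `ℂ` of the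
ring of its regular functions. -/
def Germ.dimAlong (X : Germ n) (P : Ideal X.R) : Cardinal := Algebra.trdeg ℂ (X.R ⧸ P)

/-- `P` is a prime ideal and its subvariety meets the open subset of `X` on which `f` does not
vanish. -/
def Germ.Meets (X : Germ n) (f : X.R) (P : Ideal X.R) : Prop := P.IsPrime ∧ f ∉ P

end

end MldX
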