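import Pool.Agent.MldX.Defs
import Pool.Agent.MldGeo.FRM
import Pool.Agent.MldGeo.TBAS
import Pool.Agent.MldG.Act

/-!
# Comparison of the two sets of definitions

`MldGeo` works with the exterior power of the module of Kähler differentials, `MldX` with functions
of derivations.
-/

namespace MldX

noncomputable section

section Field

variable {n : ℕ} {K : Type} [Field K] [Algebra ℂ K]

/-- The valuation in the sense of `MldGeo`. -/
@[reducible] def DivVal.old (v : DivVal n K) : MldGeo.DivVal n K :=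
  ⟨v.ord, v.ord_zero, v.ord_mul, v.ord_add, v.ord_const, v.unif, v.res⟩

/-- The inverse. -/
@[reducible] def ofOld (v : MldGeo.DivVal n K) : DivVal n K :=
  ⟨v.ord, v.ord_zero, v.ord_mul, v.ord_add, v.ord_const, v.unif, v.res⟩

theorem old_ofOld (v : MldGeo.DivVal n K) : (ofOld v).old = v := rfl

theorem ofOld_old (v : DivVal n K) : ofOld v.old = v := rfl

theorem forall_old {p : MldGeo.DivVal n K → Prop} : (∀ v, p v) ↔ ∀ v : DivVal n K, p v.old :=
  ⟨fun h v => h _, fun h v => h (ofOld v)⟩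

theorem exists_old {p : MldGeo.DivVal n K → Prop} : (∃ v, p v) ↔ ∃ v : DivVal n K, p v.old :=
  ⟨fun ⟨v, h⟩ => ⟨ofOld v, h⟩, fun ⟨v, h⟩ => ⟨v.old, h⟩⟩

/-- The linear functional on `Ω` given by a derivation. -/
def lin (D : Derivation ℂ K K) : Ω[K⁄ℂ] →ₗ[K] K := D.liftKaehlerDifferential

theorem lin_d (D : Derivation ℂ K K) (a : K) : lin D (KaehlerDifferential.D ℂ K a) = D a :=
  D.liftKaehlerDifferential_comp_D a

/-- The alternating map on `Ω` given by `n` derivations. -/
def alt (D : Fin n → Derivation ℂ K K) : Ω[K⁄ℂ] [⋀^Fin n]→ₗ[K] K :=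
  Matrix.detRowAlternating.compLinearMap (LinearMap.pi fun i => lin (D i))

/-- The value of a form on `n` derivations. -/
def ev1 (D : Fin n → Derivation ℂ K K) : MldGeo.Forms n K →ₗ[K] K :=
  exteriorPower.alternatingMapLinearEquiv (alt D)

theorem ev1_dforms (D : Fin n → Derivation ℂ K K) (a : Fin n → K) :
    ev1 D (MldGeo.dforms a) = Matrix.det fun i j => D i (a j) := by
  unfold ev1 MldGeo.dforms
  rw [exteriorPower.alternatingMapLinearEquiv_apply_ιMulti]
  unfold alt
  rw [AlternatingMap.compLinearMap_apply]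
  have h : (Matrix.detRowAlternating : (Fin n → K) [⋀^Fin n]→ₗ[K] K)
      (fun i => (LinearMap.pi fun i => lin (D i)) (KaehlerDifferential.D ℂ K (a i)))
      = Matrix.det (Matrix.of fun i j => D j (a i)) := by
    unfold Matrix.detRowAlternating
    congr 1
    ext i j
    exact lin_d (D j) (a i)
  rw [h, ← Matrix.det_transpose]
  rfl

/-- The form as a function of derivations. -/
def ev : MldGeo.Forms n K →+ Forms n K where
  toFun ω D := ev1 D ω
  map_zero' := by
    funext D
    exact map_zero (ev1 D)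
  map_add' x y := by
    funext D
    exact map_add (ev1 D) x y

theorem ev_apply (ω : MldGeo.Forms n K) (D : Fin n → Derivation ℂ K K) : ev ω D = ev1 D ω := rfl

theorem ev_smul (g : K) (ω : MldGeo.Forms n K) (D : Fin n → Derivation ℂ K K) :
    ev (g • ω) D = g * ev ω D := by
  rw [ev_apply, map_smul, smul_eq_mul, ev_apply]

theorem ev_dform (g : K) (a : Fin n → K) : ev (g • MldGeo.dforms a) = dform g a := by
  funext D
  rw [ev_smul, ev_apply, ev1_dforms]
  rfl

/-- dual derivations -/
theorem exists_dual (h : Algebra.trdeg ℂ K = (n : Cardinal)) :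
    ∃ (e : Module.Basis (Fin n) K Ω[K⁄ℂ]) (D : Fin n → Derivation ℂ K K),
      (∀ i j, lin (D i) (e j) = if i = j then 1 else 0) := by
  classical
  obtain ⟨ι, x, hx⟩ := exists_isTranscendenceBasis' ℂ K
  have hc : Cardinal.mk ι = n := by
    rw [← h]
    exact hx.cardinalMk_eq_trdeg
  have hfin : Finite ι := by
    rw [← Cardinal.lt_aleph0_iff_finite, hc]
    exact Cardinal.natCast_lt_aleph0
  letI := Fintype.ofFinite ι
  have hcard : Fintype.card ι = n := by
    have := Cardinal.mk_fintype ι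
    rw [this] at hc
    exact_mod_cast hc
  obtain ⟨f⟩ : Nonempty (Fin n ≃ ι) := ⟨(Fintype.equivFinOfCardEq hcard).symm⟩
  have hind : AlgebraicIndependent ℂ (x ∘ f) := hx.1.comp f f.injective
  obtain ⟨h1, h2⟩ := MldGeo.t_TBAS h (x ∘ f) hind
  let e : Module.Basis (Fin n) K Ω[K⁄ℂ] := Module.Basis.mk h1 (by rw [h2])
  refine ⟨e, fun i => (e.coord i).compDer (KaehlerDifferential.D ℂ K), ?_⟩
  intro i j
  have he : e j = KaehlerDifferential.D ℂ K ((x ∘ f) j) := by
    simp [e]
  rw [he, lin_d]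
  change e.coord i (KaehlerDifferential.D ℂ K ((x ∘ f) j)) = _
  rw [← he, Module.Basis.coord_apply, Module.Basis.repr_self, Finsupp.single_apply]
  by_cases hij : i = j
  · simp [hij]
  · simp [hij, Ne.symm hij]

theorem ev_injective (h : Algebra.trdeg ℂ K = (n : Cardinal)) :
    Function.Injective (ev : MldGeo.Forms n K →+ Forms n K) := by
  obtain ⟨e, D, hD⟩ := exists_dual h
  rw [injective_iff_map_eq_zero]
  intro ω hω
  obtain ⟨g, rfl⟩ := MldGeo.FRM.exists_smul e ω
  have h1 := congrFun hω D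
  rw [ev_smul, ev_apply] at h1
  have h2 : ev1 D (exteriorPower.ιMulti K n (e : Fin n → Ω[K⁄ℂ])) = 1 := by
    unfold ev1
    rw [exteriorPower.alternatingMapLinearEquiv_apply_ιMulti]
    unfold alt
    rw [AlternatingMap.compLinearMap_apply]
    have h3 : (Matrix.detRowAlternating : (Fin n → K) [⋀^Fin n]→ₗ[K] K)
        (fun i => (LinearMap.pi fun i => lin (D i)) (e i))
        = Matrix.det (1 : Matrix (Fin n) (Fin n) K) := by
      unfold Matrix.detRowAlternating
      congr 1
      ext i j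
      rw [Matrix.one_apply]
      change lin (D j) (e i) = _
      rw [hD j i]
      by_cases hij : i = j
      · simp [hij]
      · simp [hij, Ne.symm hij]
    rw [h3, Matrix.det_one]
  rw [h2, mul_one] at h1
  have h4 : g = 0 := h1
  rw [h4, zero_smul]

theorem regForms_eq (v : DivVal n K) : v.regForms = v.old.regForms.map ev := by
  unfold DivVal.regForms MldGeo.DivVal.regForms
  rw [AddMonoidHom.map_closure]
  congr 1
  ext η
  constructor
  · rintro ⟨g, a, hg, ha, rfl⟩
    exact ⟨g • MldGeo.dforms a, ⟨g, a, hg, ha, rfl⟩, ev_dform g a⟩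
  · rintro ⟨_, ⟨g, a, hg, ha, rfl⟩, rfl⟩
    exact ⟨g, a, hg, ha, ev_dform g a⟩

theorem formOrd_eq (h : Algebra.trdeg ℂ K = (n : Cardinal)) (v : DivVal n K)
    (ω : MldGeo.Forms n K) : v.formOrd (ev ω) = v.old.formOrd ω := by
  unfold DivVal.formOrd MldGeo.DivVal.formOrd
  congr 1
  ext k
  constructor
  · rintro ⟨g, hg, hk, η, hη, he⟩
    rw [regForms_eq] at hη
    obtain ⟨η', hη', rfl⟩ := hη
    refine ⟨g, hg, hk, η', hη', ?_⟩
    apply ev_injective h
    funext D
    rw [ev_smul]
    exact he D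
  · rintro ⟨g, hg, hk, η, hη, rfl⟩
    refine ⟨g, hg, hk, ev η, ?_, fun D => ev_smul g η D⟩
    rw [regForms_eq]
    exact ⟨η, hη, rfl⟩

end Field

/-! ### germs and triples -/

variable {n : ℕ}

/-- The germ in the sense of `MldGeo`. -/
@[reducible] def Germ.old (X : Germ n) : MldGeo.Germ n :=
  ⟨X.K, X.fieldK, X.algK, X.R, X.fg, X.frac, X.normal, X.trdeg, X.m, X.max⟩

variable {X : Germ n}

theorem ne_iff (a : X.R) : (a : X.K) ≠ 0 ↔ a ≠ 0 := by
  constructor
  · rintro h rfl
    exact h rfl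
  · intro h h1
    exact h (Subtype.ext h1)

theorem through_iff (v : DivVal n X.K) : X.old.Through v.old ↔ X.Through v := Iff.rfl

theorem at_iff (v : DivVal n X.K) : X.old.At v.old ↔ X.At v := by
  constructor
  · rintro ⟨h1, h2⟩
    exact ⟨h1, fun a ha h0 => h2 a ha ((ne_iff a).1 h0)⟩
  · rintro ⟨h1, h2⟩
    exact ⟨h1, fun a ha h0 => h2 a ha ((ne_iff a).2 h0)⟩

theorem along_iff (v : DivVal n X.K) (P : Ideal X.R) :
    X.old.IsOrdAlong v.old P ↔ X.IsOrdAlong v P := by
  have key : ∀ a : X.R, (a : X.K) = 0 ↔ a = 0 := fun a => by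
    have := ne_iff a
    tauto
  constructor
  · rintro ⟨h1, h2, h3, h4⟩
    refine ⟨h1, h2, h3, fun a => ?_⟩
    rw [key]
    exact h4 a
  · rintro ⟨h1, h2, h3, h4⟩
    refine ⟨h1, h2, h3, fun a => ?_⟩
    have := h4 a
    rw [key] at this
    exact this

theorem idealOrd_eq (v : DivVal n X.K) (I : Ideal X.R) :
    MldGeo.idealOrd (X := X.old) v.old I = idealOrd v I := by
  unfold MldGeo.idealOrd idealOrd
  congr 1
  ext k
  constructor
  · rintro ⟨a, ha, h0, hk⟩
    exact ⟨a, ha, (ne_iff a).2 h0, hk⟩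
  · rintro ⟨a, ha, h0, hk⟩
    exact ⟨a, ha, (ne_iff a).1 h0, hk⟩

theorem isNonzero_iff (I : Ideal X.R) : X.IsNonzero I ↔ I ≠ ⊥ := by
  constructor
  · rintro ⟨b, hb, h0⟩ rfl
    rw [Ideal.mem_bot] at hb
    rw [hb] at h0
    exact h0 rfl
  · intro h
    obtain ⟨b, hb, h0⟩ := Submodule.exists_mem_ne_zero_of_ne_bot h
    exact ⟨b, hb, (ne_iff b).2 h0⟩

theorem exists_form (T : Triple X) : ∃ ω : MldGeo.Forms n X.K, ω ≠ 0 ∧ ev ω = T.ω := by
  obtain ⟨g, a, h⟩ := T.form
  refine ⟨g • MldGeo.dforms a, ?_, by rw [ev_dform, h]⟩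
  intro h0
  apply T.ω_ne
  rw [h, ← ev_dform, h0, map_zero]

/-- The triple in the sense of `MldGeo`. -/
def Triple.old (T : Triple X) : MldGeo.Triple X.old where
  ω := (exists_form T).choose
  ω_ne := (exists_form T).choose_spec.1
  I := T.I
  finI := T.finI
  f := T.f
  f_ne := T.f_ne
  c := T.c
  J := T.J
  finJ := T.finJ
  a := T.a
  a_ne j := (isNonzero_iff _).1 (T.a_ne j)
  r := T.r
  r_nonneg := T.r_nonneg

theorem Triple.old_logDisc (T : Triple X) (v : DivVal n X.K) :
    T.old.logDisc v.old = T.logDisc v := by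
  have h : v.formOrd T.ω = v.old.formOrd T.old.ω := by
    rw [← (exists_form T).choose_spec.2]
    exact formOrd_eq X.trdeg v _
  unfold MldGeo.Triple.logDisc Triple.logDisc
  rw [h]
  rfl

theorem Triple.old_disc (T : Triple X) (v : DivVal n X.K) : T.old.disc v.old = T.disc v := by
  unfold MldGeo.Triple.disc Triple.disc
  rw [T.old_logDisc]
  congr 1
  exact Finset.sum_congr rfl fun j _ => by
    rw [← idealOrd_eq]
    rfl

theorem Triple.old_coeff (T : Triple X) (P : Ideal X.R) (b : ℝ) : T.old.Coeff P b ↔ T.Coeff P b := by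
  unfold MldGeo.Triple.Coeff Triple.Coeff
  constructor
  · rintro ⟨h, v, h1, h2⟩
    exact ⟨h, ofOld v, (along_iff (ofOld v) P).1 h1, by rw [← T.old_logDisc]; exact h2⟩
  · rintro ⟨h, v, h1, h2⟩
    exact ⟨h, v.old, (along_iff v P).2 h1, by rw [T.old_logDisc]; exact h2⟩

theorem Triple.old_effective (T : Triple X) : T.old.Effective ↔ T.Effective :=
  forall_congr' fun P => forall_congr' fun b => imp_congr (T.old_coeff P b) Iff.rfl

theorem Triple.old_noBoundary (T : Triple X) : T.old.NoBoundary ↔ T.NoBoundary :=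
  forall_congr' fun P => forall_congr' fun b => imp_congr (T.old_coeff P b) Iff.rfl

theorem Triple.old_coeffIn (T : Triple X) (S : Set ℝ) : T.old.CoeffIn S ↔ T.CoeffIn S :=
  and_congr (forall_congr' fun P => forall_congr' fun b => imp_congr (T.old_coeff P b) Iff.rfl)
    Iff.rfl

theorem Triple.old_lc (T : Triple X) : T.old.LC ↔ T.LC := by
  unfold MldGeo.Triple.LC Triple.LC
  constructor
  · intro h v hv
    rw [← T.old_disc]
    exact h _ hv
  · intro h v hv
    have := h (ofOld v) hv
    rw [← T.old_disc] at this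
    exact this

theorem Triple.old_mld (T : Triple X) : T.old.mld = T.mld := by
  unfold MldGeo.Triple.mld Triple.mld
  congr 1
  ext a
  constructor
  · rintro ⟨v, hv, h⟩
    exact ⟨ofOld v, (at_iff (ofOld v)).1 hv, by rw [← T.old_disc]; exact h⟩
  · rintro ⟨v, hv, h⟩
    exact ⟨v.old, (at_iff v).2 hv, by rw [T.old_disc]; exact h⟩

/-! ### torus actions -/

/-- The torus action in the sense of `MldG`. -/
def TorusAction.old {m : ℕ} (A : TorusAction X m) : MldG.TorusAction X.old m :=
  ⟨A.gr, A.graded, A.effective⟩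

theorem TorusAction.old_inv {m : ℕ} (A : TorusAction X m) (I : Ideal X.R) :
    A.old.Inv I ↔ A.Inv I := Iff.rfl

theorem TorusAction.old_invTriple {m : ℕ} (A : TorusAction X m) (T : Triple X) :
    A.old.InvTriple T.old ↔ A.InvTriple T :=
  and_congr (forall_congr' fun P => forall_congr' fun b => imp_congr (T.old_coeff P b) Iff.rfl)
    Iff.rfl

end

end MldX
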