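import Pool.Agent.MldX.SGDefs
import Pool.Agent.MldX.Bridge2
import Pool.Agent.MldG.SharpAsm

/-!
# Sharp gaps: comparison of the definitions
-/

namespace MldX

open MvPolynomial MldGap

noncomputable section

variable {n : ℕ}

theorem linSubst_eq (g : GL (Fin n) ℂ) : linSubst g = MldGeo.linSubst g := rfl

theorem mem_invariants (G : Subgroup (GL (Fin n) ℂ)) (p : MvPolynomial (Fin n) ℂ) :
    p ∈ MldGeo.invariants G ↔ Invariant G p := Iff.rfl

variable {X : Germ n} {G : Subgroup (GL (Fin n) ℂ)}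

/-- from the isomorphism to the homomorphism -/
def ofEquiv (ψ : X.R ≃ₐ[ℂ] MldGeo.invariants G) : X.R →ₐ[ℂ] MvPolynomial (Fin n) ℂ :=
  (MldGeo.invariants G).val.comp (ψ : X.R →ₐ[ℂ] MldGeo.invariants G)

theorem ofEquiv_apply (ψ : X.R ≃ₐ[ℂ] MldGeo.invariants G) (a : X.R) :
    toPoly (ofEquiv ψ) a = (ψ a : MvPolynomial (Fin n) ℂ) := rfl

theorem isInvIso_ofEquiv (ψ : X.R ≃ₐ[ℂ] MldGeo.invariants G) : IsInvIso X G (ofEquiv ψ) := by
  refine ⟨fun a b h => ?_, fun p => ⟨fun hp => ?_, ?_⟩⟩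
  · rw [ofEquiv_apply, ofEquiv_apply] at h
    exact ψ.injective (Subtype.ext h)
  · obtain ⟨a, ha⟩ := ψ.surjective ⟨p, (mem_invariants G p).2 hp⟩
    refine ⟨a, ?_⟩
    rw [ofEquiv_apply, ha]
  · rintro ⟨a, rfl⟩
    exact (ψ a).2

/-- from the homomorphism to the isomorphism -/
theorem exists_equiv {φ : X.R →ₐ[ℂ] MvPolynomial (Fin n) ℂ} (h : IsInvIso X G φ) :
    ∃ ψ : X.R ≃ₐ[ℂ] MldGeo.invariants G, ∀ a, (ψ a : MvPolynomial (Fin n) ℂ) = toPoly φ a := by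
  let f : X.R →ₐ[ℂ] MldGeo.invariants G :=
    φ.codRestrict (MldGeo.invariants G) fun a => (mem_invariants G _).2 ((h.2 _).2 ⟨a, rfl⟩)
  have hf : Function.Bijective f := by
    constructor
    · intro a b hab
      exact h.1 (congrArg Subtype.val hab)
    · rintro ⟨p, hp⟩
      obtain ⟨a, ha⟩ := (h.2 p).1 hp
      exact ⟨a, Subtype.ext ha⟩
  exact ⟨AlgEquiv.ofBijective f hf, fun a => rfl⟩

theorem isQuotient_iff : X.old.IsQuotient G ↔ X.IsQuotient G := by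
  constructor
  · rintro ⟨ψ, h⟩
    exact ⟨ofEquiv ψ, isInvIso_ofEquiv ψ, h⟩
  · rintro ⟨φ, h1, h2⟩
    obtain ⟨ψ, hψ⟩ := exists_equiv h1
    refine ⟨ψ, fun a => ?_⟩
    rw [hψ]
    exact h2 a

theorem isLogQuotient_iff (T : Triple X) : T.old.IsLogQuotient G ↔ T.IsLogQuotient G := by
  constructor
  · rintro ⟨hJ, ψ, h, hc⟩
    refine ⟨hJ, ofEquiv ψ, isInvIso_ofEquiv ψ, h, fun q hq hq0 v e hv => ?_⟩
    rw [← T.old_logDisc]
    exact hc q hq hq0 v.old e fun a ha => hv a ((ne_iff a).2 ha)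
  · rintro ⟨hJ, φ, h1, h2, hc⟩
    obtain ⟨ψ, hψ⟩ := exists_equiv h1
    refine ⟨hJ, ψ, fun a => ?_, fun q hq hq0 v e hv => ?_⟩
    · rw [hψ]
      exact h2 a
    · have h3 := hc q hq hq0 (ofOld v) e fun a ha => by
        have h4 := hv a ((ne_iff a).1 ha)
        rw [hψ] at h4
        exact h4
      rw [← T.old_logDisc] at h3
      exact h3

theorem hyperstandard_iff (T : Triple X) (q : ℕ) : T.old.Hyperstandard q ↔ T.Hyperstandard q :=
  forall_congr' fun P => forall_congr' fun b => imp_congr (T.old_coeff P b) Iff.rfl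

theorem toricMlds_eq (n q : ℕ) : toricMlds n q = MldG.toricMlds n q := by
  ext μ
  constructor
  · rintro ⟨X, A, T, hJ, hA, hT, rfl⟩
    exact ⟨X.old, A.old, T.old, hJ, (A.old_invTriple T).2 hA, (hyperstandard_iff T q).2 hT,
      T.old_mld⟩
  · rintro ⟨X, A, T, hJ, hA, hT, rfl⟩
    have hX : (Germ.ofOld X).old = X := rfl
    refine ⟨Germ.ofOld X, TorusAction.ofOld (X := Germ.ofOld X) A,
      Triple.ofOld (X := Germ.ofOld X) T, hJ,
      (TorusAction.ofOld_invTriple (X := Germ.ofOld X) A T).2 hA, ?_,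
      Triple.ofOld_mld (X := Germ.ofOld X) T⟩
    rw [← hyperstandard_iff, Triple.old_ofOld]
    exact hT

theorem quotientMlds_eq (n : ℕ) : quotientMlds n = MldG.quotientMlds n := by
  ext μ
  constructor
  · rintro ⟨G, X, T, hG, hT, rfl⟩
    exact ⟨G, X.old, T.old, hG, (isLogQuotient_iff T).2 hT, T.old_mld⟩
  · rintro ⟨G, X, T, hG, hT, rfl⟩
    refine ⟨G, Germ.ofOld X, Triple.ofOld (X := Germ.ofOld X) T, hG, ?_,
      Triple.ofOld_mld (X := Germ.ofOld X) T⟩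
    rw [← isLogQuotient_iff, Triple.old_ofOld]
    exact hT

theorem isolated_mem {n : ℕ} (hn : 2 ≤ n) :
    1 - 4 / ((sylvester (n - 1) : ℝ) ^ 2 + 3) ∈ isolatedQuotientMlds n := by
  obtain ⟨G, X, T, hG, hf, hX, hJ, hB, hm⟩ := MldG.isolated_mem hn
  refine ⟨G, Germ.ofOld X, Triple.ofOld (X := Germ.ofOld X) T, hG, hf,
    isQuotient_iff.1 hX, hJ, (Triple.ofOld_noBoundary (X := Germ.ofOld X) T).2 hB, ?_⟩
  rw [← hm]
  exact Triple.ofOld_mld (X := Germ.ofOld X) T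

end

end MldX
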