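import Pool.Agent.MldX.SGDefs
import Pool.Agent.MldX.SGBridge
import Pool.Agent.MldGeo.Defect
import Pool.Agent.MldGeo.Closed5

/-!
# The dimension-free ascending chain condition: short definitions
-/

namespace MldX

/-- The numbers `dim X / 2 - mld_x(X)`, where `(X, x)` runs over the isolated quotient singularities
`(ℂⁿ / G, 0)` of all dimensions `n ≥ 2`: `G` is a nontrivial finite group of linear maps which acts
freely on `ℂⁿ ∖ 0`; there are no ideals and no boundary. -/
def defects : Set ℝ :=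
  {d : ℝ | ∃ (n : ℕ) (G : Subgroup (GL (Fin n) ℂ)) (X : Germ n) (T : Triple X),
    2 ≤ n ∧ Finite G ∧ G ≠ ⊥ ∧ MldGap.ActsFreely G ∧ X.IsQuotient G ∧ IsEmpty T.J ∧
    T.NoBoundary ∧ d = (n : ℝ) / 2 - T.mld}

theorem defects_isWF : defects.IsWF := by
  refine (MldGeo.defects_isWF MldGeo.c_MLQ MldGeo.c_FRE).mono ?_
  rintro d ⟨n, G, X, T, hn, hfin, hne, hfree, hX, hJ, hB, rfl⟩
  exact ⟨n, G, X.old, T.old, hn, hfin, hne, hfree, isQuotient_iff.2 hX, T.old_noBoundary.2 hB, hJ,
    by rw [T.old_mld]⟩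

end MldX
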