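import Pool.Agent.MldX.G4Defs
import Pool.Agent.MldX.SGBridge
import Pool.Agent.G4.TFX
import Pool.Agent.G4.TRDX
import Pool.Agent.G4.PST
import Pool.Agent.G4.TRT
import Pool.Agent.G4.LWT
import Pool.Agent.G4.MNT
import Pool.Agent.G4.UPT
import Pool.Agent.G4.QTA
import Pool.Agent.G4.AGC
import Pool.Agent.G4.TQX
import Pool.Agent.G4.DFM
import Pool.Agent.SG4.Core

/-!
# The sharp gap below one without boundary: assembly
-/

namespace G4

open MldGeo MldGap

noncomputable section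

theorem c_QTA : Stmt_QTA := t_QTA t_PST t_TRT t_MNT t_LWT t_UPT

/-- The bound. -/
def bd (n : ℕ) : ℝ := 1 - 4 / ((sylvester (n - 1) : ℝ) ^ 2 + 3)

theorem core_bd {n : ℕ} (h2 : 2 ≤ n) (h4 : n ≤ 4) : Core n (bd n) := by
  intro x hx
  interval_cases n
  · have h := Pool.Agent.SG4.core2 x hx.nonneg hx.lt hx.min
    refine h.trans (le_of_eq ?_)
    norm_num [bd, sylvester]
  · have h := Pool.Agent.SG4.core3 x hx.nonneg hx.lt hx.min
    refine h.trans (le_of_eq ?_)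
    norm_num [bd, sylvester]
  · have h := Pool.Agent.SG4.core4 x hx.nonneg hx.lt hx.min
    refine h.trans (le_of_eq ?_)
    norm_num [bd, sylvester]

theorem bd_lt (n : ℕ) : bd n < 1 := by
  unfold bd
  have : (0 : ℝ) < 4 / ((sylvester (n - 1) : ℝ) ^ 2 + 3) := by positivity
  linarith

theorem toric_le {n : ℕ} {b : ℝ} (hn : 0 < n) (hcore : Core n b) {X : Germ n}
    (A : MldG.TorusAction X n) (T : Triple X) (hJ : IsEmpty T.J) (hB : T.NoBoundary)
    (hlt : tmld T < 1) : tmld T ≤ b := by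
  obtain ⟨X', A', T', h1, h2, h3⟩ := t_TRDX X A T hn hJ hB
  rw [← h3] at hlt ⊢
  exact t_TFX X' A' T' b hn hcore h1 h2 hlt

theorem quot_le {n : ℕ} {b : ℝ} (hn : 0 < n) (hcore : Core n b) {X : Germ n}
    (G : Subgroup (GL (Fin n) ℂ)) [Finite G] (T : Triple X) (hT : T.IsLogQuotient G)
    (hlt : tmld T < 1) : tmld T ≤ b := by
  obtain ⟨g, hg, hg1, he, hmin⟩ := (c_QTA G T hn hT).1 hlt
  rw [← he] at hlt ⊢
  exact t_AGC G b hcore g hg hg1 hmin hlt

theorem iso_le {n : ℕ} {b : ℝ} (hn : 2 ≤ n) (hcore : Core n b) (G : Subgroup (GL (Fin n) ℂ))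
    [Finite G] (hF : ActsFreely G) (hlt : mldQuot G < 1) : mldQuot G ≤ b := by
  classical
  obtain ⟨_, ⟨g0, hg0, rfl⟩, h0⟩ := exists_lt_of_csInf_lt (quot_nonempty G) hlt
  have h01 : g0 ≠ 1 := by
    rintro rfl
    simp only [logAge_one] at h0
    have : (2 : ℝ) ≤ n := by exact_mod_cast hn
    linarith
  have hfin : {g : GL (Fin n) ℂ | g ∈ G ∧ g ≠ 1}.Finite :=
    (Set.toFinite (G : Set (GL (Fin n) ℂ))).subset fun g hg => hg.1
  obtain ⟨g, hg, hgm⟩ := hfin.exists_minimalFor Pool.Agent.Mld.age _ ⟨g0, hg0, h01⟩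
  have hmin : ∀ h ∈ G, h ≠ 1 → Pool.Agent.Mld.age g ≤ Pool.Agent.Mld.age h := by
    intro h hh hh1
    rcases le_total (Pool.Agent.Mld.age g) (Pool.Agent.Mld.age h) with h' | h'
    · exact h'
    · exact hgm ⟨hh, hh1⟩ h'
  have hF' : Pool.Agent.Mld.Free G := hF
  have h1 : Pool.Agent.Mld.age g < 1 := by
    have h2 := hmin g0 hg0 h01
    rw [← logAge_eq_age hF' hg0 h01] at h2
    exact h2.trans_lt h0
  have h2 := t_AGC G b hcore g hg.1 hg.2 hmin h1
  refine le_trans ?_ h2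
  rw [← logAge_eq_age hF' hg.1 hg.2]
  exact csInf_le (quot_bddBelow G) ⟨g, hg.1, rfl⟩

/-- The extremal example. -/
theorem exists_example {n : ℕ} (hn : 2 ≤ n) :
    ∃ (G : Subgroup (GL (Fin n) ℂ)) (X : Germ n) (_ : MldG.TorusAction X n) (T : Triple X),
      Finite G ∧ T.IsLogQuotient G ∧ IsEmpty T.J ∧ T.NoBoundary ∧ tmld T = bd n := by
  obtain ⟨N, rfl⟩ : ∃ N, n = N + 2 := ⟨n - 2, by omega⟩
  obtain ⟨G, hfin, hF, hd, g, hg, hg1, hmin, he⟩ := t_DFM N
  obtain ⟨X, hX⟩ := c_GEX G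
  obtain ⟨T, hT⟩ := c_TEX G X (by omega) hX
  obtain ⟨A⟩ := t_TQX X G hX hd
  have hB : T.NoBoundary := (c_FRE G T hn hF hX hT.1).2 hT
  have he' : Pool.Agent.Mld.age g = bd (N + 2) := he
  refine ⟨G, X, A, T, hfin, hT, hT.1, hB, ?_⟩
  rw [← he']
  exact (c_QTA G T (by omega) hT).2 g hg hg1 hmin (by rw [he']; exact bd_lt _)

end

end G4

namespace MldX

open MldGap

noncomputable section

variable {n : ℕ} {X : Germ n}

theorem Triple.old_totalMld (T : Triple X) : G4.tmld T.old = T.totalMld := by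
  unfold G4.tmld Triple.totalMld
  congr 1
  ext a
  constructor
  · rintro ⟨v, hv, h⟩
    exact ⟨MldX.ofOld v, (through_iff (MldX.ofOld v)).1 hv, by rw [← T.old_disc]; exact h⟩
  · rintro ⟨v, hv, h⟩
    exact ⟨v.old, (through_iff v).2 hv, by rw [T.old_disc]; exact h⟩

theorem Triple.ofOld_totalMld (T : MldGeo.Triple X.old) : (ofOld T).totalMld = G4.tmld T := by
  rw [← Triple.old_totalMld, Triple.old_ofOld]

/-- Toric singularities without boundary. -/
theorem toricTotal_greatest (h2 : 2 ≤ n) (h4 : n ≤ 4) :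
    IsGreatest {μ ∈ toricTotalMlds n | μ < 1} (1 - 4 / ((sylvester (n - 1) : ℝ) ^ 2 + 3)) := by
  constructor
  · obtain ⟨G, X, A, T, -, -, hJ, hB, he⟩ := G4.exists_example h2
    refine ⟨⟨Germ.ofOld X, TorusAction.ofOld (X := Germ.ofOld X) A,
      Triple.ofOld (X := Germ.ofOld X) T, hJ,
      (Triple.ofOld_noBoundary (X := Germ.ofOld X) T).2 hB, ?_⟩, G4.bd_lt n⟩
    exact (Triple.ofOld_totalMld (X := Germ.ofOld X) T).trans he
  · rintro μ ⟨⟨X, A, T, hJ, hB, rfl⟩, hlt⟩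
    rw [← T.old_totalMld] at hlt ⊢
    exact G4.toric_le (by omega) (G4.core_bd h2 h4) A.old T.old hJ ((T.old_noBoundary).2 hB) hlt

/-- Quotient singularities without boundary. -/
theorem quotientTotal_greatest (h2 : 2 ≤ n) (h4 : n ≤ 4) :
    IsGreatest {μ ∈ quotientTotalMlds n | μ < 1}
      (1 - 4 / ((sylvester (n - 1) : ℝ) ^ 2 + 3)) := by
  constructor
  · obtain ⟨G, X, -, T, hG, hT, hJ, hB, he⟩ := G4.exists_example h2
    refine ⟨⟨G, Germ.ofOld X, Triple.ofOld (X := Germ.ofOld X) T, hG, ?_,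
      (Triple.ofOld_noBoundary (X := Germ.ofOld X) T).2 hB, ?_⟩, G4.bd_lt n⟩
    · rw [← isLogQuotient_iff, Triple.old_ofOld]
      exact hT
    · exact (Triple.ofOld_totalMld (X := Germ.ofOld X) T).trans he
  · rintro μ ⟨⟨G, X, T, hG, hT, hB, rfl⟩, hlt⟩
    rw [← T.old_totalMld] at hlt ⊢
    exact G4.quot_le (by omega) (G4.core_bd h2 h4) G T.old ((isLogQuotient_iff T).2 hT) hlt

/-- Isolated quotient singularities: minimal log discrepancies at the point. -/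
theorem isolated_greatest (h2 : 2 ≤ n) (h4 : n ≤ 4) :
    IsGreatest {μ ∈ isolatedQuotientMlds n | μ < 1}
      (1 - 4 / ((sylvester (n - 1) : ℝ) ^ 2 + 3)) := by
  refine ⟨⟨isolated_mem h2, G4.bd_lt n⟩, ?_⟩
  rintro μ ⟨⟨G, X, T, hG, hF, hX, hJ, hB, rfl⟩, hlt⟩
  have hX' : X.old.IsQuotient G := isQuotient_iff.2 hX
  have hT : T.old.IsLogQuotient G :=
    (MldGeo.c_FRE G T.old h2 hF hX' hJ).1 ((T.old_noBoundary).2 hB)
  have he : T.mld = mldQuot G := by
    rw [← T.old_mld]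
    exact MldGeo.c_MLQ G T.old (by omega) hT
  rw [he] at hlt ⊢
  exact G4.iso_le h2 (G4.core_bd h2 h4) G hF hlt

end

end MldX
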