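import Pool.Agent.MldX.G4Asm
import Pool.Agent.G5.BCO
import Pool.Agent.G5.RED
import Pool.Agent.G5.EXN
import Pool.Agent.G5.TGB
import Pool.Agent.G5.AGL
import Pool.Agent.G5.NRB
import Pool.Agent.G5.RFB
import Pool.Agent.G5.EXG

/-!
# Sharp gaps without boundary at closed points: assembly
-/

namespace G5

open MldGeo MldGap
open MldX (freeGap)

noncomputable section

/-- The bound. -/
def bd (n l : ℕ) : ℝ := (l : ℝ) - 1 / (freeGap (n - l) : ℝ)

theorem core_bd {n l : ℕ} (hl : 1 ≤ l) (h3 : n ≤ l + 3) : Core n l (bd n l) :=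
  t_RED base21 base31 base42 base41 base52 base63 n l hl h3

theorem freeGap_pos (k : ℕ) : 0 < freeGap k := by
  cases k with
  | zero => exact one_pos
  | succ k =>
    unfold freeGap
    have h := MldGap.sylvester_real k
    have h1 : 2 ≤ sylvester k := by exact_mod_cast h
    exact Nat.mul_pos (by omega) (by positivity)

theorem bd_lt (n l : ℕ) : bd n l < l := by
  unfold bd
  have h1 : (0 : ℝ) < freeGap (n - l) := by exact_mod_cast freeGap_pos _
  have : (0 : ℝ) < 1 / (freeGap (n - l) : ℝ) := by positivity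
  linarith

/-- Toric germs: reduction to fixed points. -/
theorem toric_fixed {n : ℕ} (hn : 0 < n) {X : Germ n} (A : MldG.TorusAction X n) (T : Triple X)
    (hJ : IsEmpty T.J) (hB : T.NoBoundary) :
    ∃ (X' : Germ n) (A' : MldGeo.TorusAction X' n) (T' : Triple X'), IsEmpty T'.J ∧
      A'.InvTriple T' ∧ T'.NoBoundary ∧ T'.mld = T.mld := by
  have hA : A.InvTriple T :=
    ⟨fun P b h hb => absurd (hB P b h) hb, fun j => (hJ.false j).elim⟩
  obtain ⟨X', A', T', hG, hm, hF⟩ := MldG.fxe A T (fun b => b = 0) hn ⟨hA, hB, hJ⟩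
  have hHFK : MldG.Stmt_HFK := MldG.t_HFK MldG.t_HLI MldG.t_HFR
  have hTRD : MldG.Stmt_TRD := MldG.t_TRD MldG.t_SPL hHFK
  exact ⟨X', MldG.TAG.toGeo A' (MldG.TAG.const_of_full hTRD A') hF, T', hG.emp,
    MldG.TAG.inv_toGeo A' (MldG.TAG.const_of_full hTRD A') hF hG.inv, hG.co, hm⟩

theorem toric_le {n l : ℕ} {b : ℝ} (hn : 0 < n) (hcore : Core n l b) {X : Germ n}
    (A : MldG.TorusAction X n) (T : Triple X) (hJ : IsEmpty T.J) (hB : T.NoBoundary)
    (hlt : T.mld < l) : T.mld ≤ b := by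
  obtain ⟨X', A', T', hJ', hA', hB', hm⟩ := toric_fixed hn A T hJ hB
  rw [← hm] at hlt ⊢
  obtain ⟨G, hG, hb⟩ := c_TDG X' A' T' hn hJ' hA' (fun P b h => by
    rw [hB' P b h]
    exact ⟨le_rfl, zero_le_one⟩)
  rw [← hG] at hlt ⊢
  refine t_TGB G l b (fun i => ?_) hcore hlt
  obtain ⟨P, hP⟩ := hb i
  exact hB' P _ hP

theorem quot_le {n l : ℕ} {b : ℝ} (hn : 0 < n) (hcore : Core n l b) {X : Germ n}
    (G : Subgroup (GL (Fin n) ℂ)) [Finite G] (T : Triple X) (hT : T.IsLogQuotient G)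
    (hB : T.NoBoundary) (hlt : T.mld < l) : T.mld ≤ b := by
  have hR : NoRefl G := t_RFB G T hn hT hB
  rw [c_MLQ G T hn hT] at hlt ⊢
  exact t_AGL G l b hR hcore hlt

/-- The extremal examples. -/
theorem exists_example {n l : ℕ} (hn : 2 ≤ n) (hl : 1 ≤ l) (hln : l ≤ n) :
    ∃ (G : Subgroup (GL (Fin n) ℂ)) (X : Germ n) (_ : MldG.TorusAction X n) (T : Triple X),
      Finite G ∧ T.IsLogQuotient G ∧ IsEmpty T.J ∧ T.NoBoundary ∧ T.mld = bd n l := by
  obtain ⟨h, w, a, h0, h1, h2, h3, h4⟩ := t_EXN n l hn hl hln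
  obtain ⟨G, hfin, hR, hd, hm⟩ := t_EXG h w a h0 h1 h2 h3
  obtain ⟨X, hX⟩ := c_GEX G
  obtain ⟨T, hT⟩ := c_TEX G X (by omega) hX
  obtain ⟨A⟩ := G4.t_TQX X G hX hd
  refine ⟨G, X, A, T, hfin, hT, hT.1, t_NRB G T (by omega) hR hT, ?_⟩
  rw [c_MLQ G T (by omega) hT, hm, h4]
  rfl

end

end G5

namespace MldX

open MldGap

noncomputable section

variable {n : ℕ} {X : Germ n}

/-- Toric singularities without boundary: the values. -/
theorem toricFree_mem {l : ℕ} (hn : 2 ≤ n) (hl : 1 ≤ l) (hln : l ≤ n) :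
    (l : ℝ) - 1 / (freeGap (n - l) : ℝ) ∈ toricFreeMlds n := by
  obtain ⟨G, X, A, T, -, -, hJ, hB, he⟩ := G5.exists_example hn hl hln
  exact ⟨Germ.ofOld X, TorusAction.ofOld (X := Germ.ofOld X) A,
    Triple.ofOld (X := Germ.ofOld X) T, hJ,
    (Triple.ofOld_noBoundary (X := Germ.ofOld X) T).2 hB,
    (Triple.ofOld_mld (X := Germ.ofOld X) T).trans he⟩

/-- Quotient singularities without boundary: the values. -/
theorem quotientFree_mem {l : ℕ} (hn : 2 ≤ n) (hl : 1 ≤ l) (hln : l ≤ n) :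
    (l : ℝ) - 1 / (freeGap (n - l) : ℝ) ∈ quotientFreeMlds n := by
  obtain ⟨G, X, -, T, hG, hT, hJ, hB, he⟩ := G5.exists_example hn hl hln
  refine ⟨G, Germ.ofOld X, Triple.ofOld (X := Germ.ofOld X) T, hG, ?_,
    (Triple.ofOld_noBoundary (X := Germ.ofOld X) T).2 hB,
    (Triple.ofOld_mld (X := Germ.ofOld X) T).trans he⟩
  rw [← isLogQuotient_iff, Triple.old_ofOld]
  exact hT

/-- Toric singularities without boundary: the gaps. -/
theorem toricFree_greatest {l : ℕ} (hn : 2 ≤ n) (hl : 1 ≤ l) (hln : l ≤ n) (h3 : n ≤ l + 3) :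
    IsGreatest {μ ∈ toricFreeMlds n | μ < l} ((l : ℝ) - 1 / (freeGap (n - l) : ℝ)) := by
  refine ⟨⟨toricFree_mem hn hl hln, G5.bd_lt n l⟩, ?_⟩
  rintro μ ⟨⟨X, A, T, hJ, hB, rfl⟩, hlt⟩
  rw [← T.old_mld] at hlt ⊢
  exact G5.toric_le (by omega) (G5.core_bd hl h3) A.old T.old hJ ((T.old_noBoundary).2 hB) hlt

/-- Quotient singularities without boundary: the gaps. -/
theorem quotientFree_greatest {l : ℕ} (hn : 2 ≤ n) (hl : 1 ≤ l) (hln : l ≤ n) (h3 : n ≤ l + 3) :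
    IsGreatest {μ ∈ quotientFreeMlds n | μ < l} ((l : ℝ) - 1 / (freeGap (n - l) : ℝ)) := by
  refine ⟨⟨quotientFree_mem hn hl hln, G5.bd_lt n l⟩, ?_⟩
  rintro μ ⟨⟨G, X, T, hG, hT, hB, rfl⟩, hlt⟩
  rw [← T.old_mld] at hlt ⊢
  exact G5.quot_le (by omega) (G5.core_bd hl h3) G T.old ((isLogQuotient_iff T).2 hT)
    ((T.old_noBoundary).2 hB) hlt

end

end MldX
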