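import Pool.Agent.MldX.XGAsm
import Pool.Agent.G6.REDA
import Pool.Agent.G6.ALL
import Pool.Agent.G6.CEX
import Pool.Agent.G6.CLA
import Pool.Agent.G6.CLB
import Pool.Agent.G6.CLC
import Pool.Agent.G6.CLO
import Pool.Agent.G6.DNS
import Pool.Agent.G6.END
import Pool.Agent.G6.GRO
import Pool.Agent.G6.HLF
import Pool.Agent.G6.MAI
import Pool.Agent.G6.P11
import Pool.Agent.G6.P12A
import Pool.Agent.G6.P12B
import Pool.Agent.G6.P12R
import Pool.Agent.G6.P2A
import Pool.Agent.G6.P2B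
import Pool.Agent.G6.P2C
import Pool.Agent.G6.PB1
import Pool.Agent.G6.PC1
import Pool.Agent.G6.PFA
import Pool.Agent.G6.PLA
import Pool.Agent.G6.PLN
import Pool.Agent.G6.PSI
import Pool.Agent.G6.STG
import Pool.Agent.G6.TAI
import Pool.Agent.G6.THR
import Pool.Agent.G6.UBD

/-!
# Sharp gaps without boundary at closed points, in all dimensions
-/

namespace G6

open MldX (freeGap)

open Finset

/-- The bound for sorted families. -/
theorem bound_sorted : ∀ (c h : ℕ) (x : ℕ → ℝ), 3 ≤ c → h ≤ c → SPt (h + c + 2) h x →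
    ∑ i ∈ range (h + c + 2), x i ≤ (h : ℝ) + 1 - 1 / (HH (LL c) : ℝ) :=
  t_MAI t_DNS t_PSI t_CEX t_TAI t_GRO t_THR t_HLF t_STG t_CLO t_CLA t_CLB t_CLC t_ALL t_UBD t_PLN
    (t_PLA t_PB1 t_PC1 t_P11 t_P12R t_P12A t_P12B t_P2A t_P2B t_P2C t_PFA) t_END

/-- The arithmetic core. -/
theorem core_full (n l : ℕ) (hl : 1 ≤ l) : G5.Core n l ((l : ℝ) - 1 / (freeGap (n - l) : ℝ)) :=
  core_all bound_sorted n l hl

end G6

namespace MldX

open MldGap

noncomputable section

variable {n : ℕ}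

/-- Toric singularities without boundary: the gap below every integer level, all dimensions. -/
theorem toricFree_sharp {l : ℕ} (hn : 2 ≤ n) (hl : 1 ≤ l) (hln : l ≤ n) :
    IsGreatest {μ ∈ toricFreeMlds n | μ < l} ((l : ℝ) - 1 / (freeGap (n - l) : ℝ)) := by
  refine ⟨⟨toricFree_mem hn hl hln, G5.bd_lt n l⟩, ?_⟩
  rintro μ ⟨⟨X, A, T, hJ, hB, rfl⟩, hlt⟩
  rw [← T.old_mld] at hlt ⊢
  exact G5.toric_le (by omega) (G6.core_full n l hl) A.old T.old hJ ((T.old_noBoundary).2 hB) hlt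

/-- Quotient singularities without boundary: the gap below every integer level, all dimensions. -/
theorem quotientFree_sharp {l : ℕ} (hn : 2 ≤ n) (hl : 1 ≤ l) (hln : l ≤ n) :
    IsGreatest {μ ∈ quotientFreeMlds n | μ < l} ((l : ℝ) - 1 / (freeGap (n - l) : ℝ)) := by
  refine ⟨⟨quotientFree_mem hn hl hln, G5.bd_lt n l⟩, ?_⟩
  rintro μ ⟨⟨G, X, T, hG, hT, hB, rfl⟩, hlt⟩
  rw [← T.old_mld] at hlt ⊢
  exact G5.quot_le (by omega) (G6.core_full n l hl) G T.old ((isLogQuotient_iff T).2 hT)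
    ((T.old_noBoundary).2 hB) hlt

/-- Quotients of toric singularities without boundary: the gap below one, all dimensions. -/
theorem crepantFree_sharp_one (hn : 2 ≤ n) :
    IsGreatest {μ ∈ crepantFreeMlds n | μ < 1} (1 - 1 / (freeGap (n - 1) : ℝ)) := by
  refine crepantFree_sharp_of_core hn ?_
  have := G6.core_full n 1 le_rfl
  rwa [Nat.cast_one] at this

end

end MldX
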