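import Mathlib

/-!
# MP_fa3f7f_ag: Newton polyhedra and nondegenerate systems of polynomials
-/

set_option autoImplicit false

namespace MldX

noncomputable section

open MvPolynomial

variable {N r : ℕ}

/-- The weight of the monomial `x^u`. -/
def wdeg (w : Fin N → ℕ) (u : Fin N →₀ ℕ) : ℕ := ∑ j, w j * u j

/-- The order of a polynomial with respect to the weights `w`: the least weight of its monomials. -/
def word (w : Fin N → ℕ) (p : MvPolynomial (Fin N) ℂ) : ℕ := sInf (wdeg w '' p.support)

/-- The initial form of a polynomial with respect to the weights `w`: the sum of the terms of least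
weight. -/
def initForm (w : Fin N → ℕ) (p : MvPolynomial (Fin N) ℂ) : MvPolynomial (Fin N) ℂ :=
  ∑ u ∈ p.support with wdeg w u = word w p, monomial u (coeff u p)

/-- The system `f_1, …, f_r` is Newton nondegenerate at the origin (Kouchnirenko, Khovanskii): for all
positive weights and for every subset `I` of the system the initial forms of the `f_i`, `i ∈ I`, have
linearly independent gradients at their common zeros in the torus. -/
def Nondegenerate (f : Fin r → MvPolynomial (Fin N) ℂ) : Prop :=
  ∀ w : Fin N → ℕ, (∀ j, 0 < w j) → ∀ (I : Finset (Fin r)) (z : Fin N → ℂ), (∀ j, z j ≠ 0) →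
    (∀ i ∈ I, eval z (initForm w (f i)) = 0) →
    LinearIndependent ℂ fun (i : I) (j : Fin N) => eval z (pderiv j (initForm w (f i)))

/-- The point `(1, …, 1)` lies in the interior of the Newton polyhedron of `f_1 ⋯ f_r`. -/
def InteriorPoint (f : Fin r → MvPolynomial (Fin N) ℂ) : Prop :=
  ∀ w : Fin N → ℕ, w ≠ 0 → ∑ i, word w (f i) < ∑ j, w j

end

end MldX
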