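import Pool.Agent.MldX.Quot
import Pool.Agent.MldX.Newton

/-!
# MP_fa3f7f_ag: quotients of nondegenerate complete intersections
-/

set_option autoImplicit false

namespace MldX

noncomputable section

open MvPolynomial

variable {n N r : ℕ} {X : Germ n}

/-- Near `x` the variety `X` is the complete intersection `f_1 = … = f_r = 0` in the affine space with
the coordinates `x_1, …, x_N`, `x` is the origin, the system is Newton nondegenerate and
`(1, …, 1)` lies in the interior of the Newton polyhedron of `f_1 ⋯ f_r` (these are the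
nondegenerate canonical singularities). -/
structure Germ.NewtonCI (X : Germ n) (f : Fin r → MvPolynomial (Fin N) ℂ) (x : Fin N → X.K) :
    Prop where
  dim : n + r = N
  van : ∀ j, X.Vanishes (x j)
  ne : ∀ j, x j ≠ 0
  /-- the regular functions on `X` near `x` are the fractions `p / s` of polynomials in the
  coordinates, `s(0) ≠ 0` -/
  gen : ∀ a ∈ X.R, ∃ p s : MvPolynomial (Fin N) ℂ, constantCoeff s ≠ 0 ∧
    a * aeval x s = aeval x p
  /-- the relations between the coordinates are, near `x`, generated by `f_1, …, f_r` -/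
  eqn : ∀ p : MvPolynomial (Fin N) ℂ, aeval x p = 0 ↔
    ∃ s : MvPolynomial (Fin N) ℂ, constantCoeff s ≠ 0 ∧ s * p ∈ Ideal.span (Set.range f)
  nondeg : Nondegenerate f
  interior : InteriorPoint f

/-- Near `x` the function `a` belongs to the ideal `I`. -/
def Germ.Near (X : Germ n) (I : Ideal X.R) (a : X.R) : Prop := ∃ s ∉ X.m, s * a ∈ I

/-- The ideal generated by the monomials `x^u`, `u ∈ M`. -/
def Germ.monIdeal (X : Germ n) (x : Fin N → X.K) (M : Set (Fin N →₀ ℕ)) : Ideal X.R :=
  Ideal.span {a : X.R | ∃ u ∈ M, (a : X.K) = ∏ j, x j ^ u j}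

/-- Near `x` one has `B = ∑ b_j div(x_j)`, `b_j ≥ 0`, and the ideals `𝔞_j` are generated by monomials
in the coordinates; the nonzero coefficients `b_j` and the nonzero exponents belong to `D`. -/
structure Triple.IsMonomial (T : Triple X) (x : Fin N → X.K) (D : Set ℝ) : Prop where
  boundary : ∃ b : Fin N → ℝ, (∀ j, 0 ≤ b j ∧ (b j ≠ 0 → b j ∈ D)) ∧
    ∀ (v : DivVal n X.K) (P : Ideal X.R), P ≤ X.m → X.IsOrdAlong v P →
      T.logDisc v = 1 - ∑ j, b j * v.ord (x j)
  ideals : ∀ j, ∃ M : Set (Fin N →₀ ℕ), ∀ a, X.Near (T.a j) a ↔ X.Near (X.monIdeal x M) a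
  exponents : ∀ j, T.r j ≠ 0 → T.r j ∈ D

/-- The triple is given near `x` by a nondegenerate complete intersection as above, where the
coordinates `x_j` are eigenfunctions of `g` and the equations `f_i` are semi-invariant; the affine
space has dimension at most `N` or the `f_i` have no linear terms. -/
def Triple.Newton (T : Triple X) (N : ℕ) (D : Set ℝ) (g : X.Aut) : Prop :=
  ∃ (N' r : ℕ) (f : Fin r → MvPolynomial (Fin N') ℂ) (x : Fin N' → X.K) (c : Fin N' → ℂ),
    (N' ≤ N ∨ ∀ i, ∀ u ∈ (f i).support, 2 ≤ ∑ j, u j) ∧ X.NewtonCI f x ∧ T.IsMonomial x D ∧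
    (∀ j, g (x j) = algebraMap ℂ X.K (c j) * x j) ∧
    ∀ i, ∀ u ∈ (f i).support, ∀ u' ∈ (f i).support, ∏ j, c j ^ u j = ∏ j, c j ^ u' j

/-- The minimal log discrepancies of the triples `(y ∈ Y, B', ∏ 𝔟_i^{s_i})` of dimension `n` such that
`Y = X / G`, `G` finite, the crepant pullback `(x ∈ X, B, ∏ 𝔞_j^{r_j})` is log canonical, and for
every element `g` of `G` one of the following two conditions is satisfied. (1) `X` is near `x` a
nondegenerate complete intersection in an affine space with coordinates which are eigenfunctions of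
`g`, with semi-invariant equations, and `B` and the ideals are monomial in these coordinates, with
coefficients and exponents in `D`; the dimension of the affine space is at most `N` or the equations
have no linear terms. (2) `g` normalises a torus of dimension `n` which acts on `X` with
`x` as attractive fixed point and leaves `B ≥ 0` and the ideals invariant, the nonzero coefficients
and exponents belong to `D`. -/
def ndMld (n N : ℕ) (D : Set ℝ) : Set ℝ :=
  {a | ∃ (X Y : Germ n) (G : Subgroup X.Aut) (π : Map X Y) (T : Triple X) (T' : Triple Y),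
    IsQuot G π ∧ Crepant π T T' ∧ T.LC ∧
    (∀ g ∈ G, T.Newton N D g ∨ (T.Effective ∧ T.CoeffIn D ∧ T.Toric g)) ∧ T'.mld = a}

end

end MldX
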