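import Pool.Agent.MldX.Quot
import Pool.Agent.MldX.Bridge
import Pool.Agent.MldGeo.QDefs

/-!
# Comparison of the two definitions of `quotMld`
-/

namespace MldX

noncomputable section

variable {n : ℕ} {X Y : Germ n}

theorem vanishes_iff (a : X.R) : X.Vanishes (a : X.K) ↔ a ∈ X.m := by
  constructor
  · rintro ⟨b, hb, h⟩
    have h1 : b = a := Subtype.ext h
    rwa [← h1]
  · intro h
    exact ⟨a, h, rfl⟩

theorem weight_iff {m : ℕ} (A : TorusAction X m) (u : Fin m → ℤ) (a : X.R) :
    A.Weight u (a : X.K) ↔ a ∈ A.gr u := by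
  constructor
  · rintro ⟨b, hb, h⟩
    have h1 : b = a := Subtype.ext h
    rwa [← h1]
  · intro h
    exact ⟨a, h, rfl⟩

theorem IsQuot.old {G : Subgroup X.Aut} {π : Map X Y} (h : IsQuot G π) :
    MldGeo.IsQuot X.old Y.old G π :=
  ⟨h.finite, h.acts, fun g hg a b hb ha => (vanishes_iff b).1 (by
      rw [hb]
      exact h.fixes g hg _ ((vanishes_iff a).2 ha)),
    h.field, h.ring, fun b a hab => by
      rw [← vanishes_iff (X := Y) b, ← vanishes_iff (X := X) a, hab]
      exact h.point b⟩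

theorem Triple.old_idealPart (T : Triple X) (w : DivVal n X.K) :
    ∑ j, T.old.r j * (MldGeo.idealOrd (X := X.old) w.old (T.old.a j) : ℝ) = T.idealPart w := by
  unfold Triple.idealPart
  exact Finset.sum_congr rfl fun j _ => by
    rw [← idealOrd_eq]
    rfl

theorem Crepant.old {π : Map X Y} {T : Triple X} {T' : Triple Y} (h : Crepant π T T') :
    MldGeo.Crepant (X := X.old) (Y := Y.old) π T.old T'.old := by
  constructor
  · intro w v e Q hQ hw ho
    have h1 := h.divisor (ofOld w) (ofOld v) e ho ⟨Q, hQ, (along_iff (ofOld w) Q).1 hw⟩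
    rw [← T.old_logDisc, ← T'.old_logDisc] at h1
    exact h1
  · intro w v e hw ho
    have h1 := h.ideals (ofOld w) (ofOld v) e ho ((through_iff (ofOld w)).1 hw)
    rw [← T.old_idealPart, ← T'.old_idealPart] at h1
    exact h1

/-- The torus action in the sense of `MldGeo`. -/
def TorusAction.geo {m : ℕ} (A : TorusAction X m) (h : A.Attractive) :
    MldGeo.TorusAction X.old m where
  gr := A.gr
  graded := A.graded
  effective := A.effective
  const a ha := by
    obtain ⟨c, hc⟩ := h.1 a ((weight_iff A 0 a).2 ha)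
    exact ⟨c, Subtype.ext hc⟩
  vanish u hu a ha := (vanishes_iff a).1 (h.2 u hu a ((weight_iff A u a).2 ha))

theorem Triple.Toric.old {T : Triple X} {g : X.Aut} (h : T.Toric g) :
    ∃ A : MldGeo.TorusAction X.old n, A.Normal g ∧ A.InvTriple T.old := by
  obtain ⟨A, h1, h2, h3⟩ := h
  refine ⟨A.geo h1, fun u => ?_, fun P b hP hb => ?_, h3.2⟩
  · obtain ⟨u', hu'⟩ := h2 u
    refine ⟨u', fun a b ha hb => (weight_iff A u' b).1 ?_⟩
    rw [hb]
    exact hu' a ((weight_iff A u a).2 ha)
  · exact h3.1 P b ((T.old_coeff P b).1 hP) hb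

theorem quotMld_subset (n : ℕ) (D : Set ℝ) : quotMld n D ⊆ MldGeo.quotMld n D := by
  rintro a ⟨X, Y, G, π, T, T', hQ, hC, hLC, hE, hD, hG, h⟩
  refine ⟨X.old, Y.old, G, π, T.old, T'.old, hQ.old, hC.old, T.old_lc.2 hLC,
    T.old_effective.2 hE, (T.old_coeffIn D).2 hD, fun g hg => (hG g hg).old, ?_⟩
  rw [T'.old_mld, h]

end

end MldX
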