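import Pool.Agent.MldX.Nd
import Pool.Agent.MldX.QuotBridge
import Pool.Agent.NDQ.St

/-!
# Comparison of the two definitions of `ndMld`
-/

set_option autoImplicit false

namespace MldX

noncomputable section

open MvPolynomial

variable {n N r : ℕ} {X : Germ n}

theorem Germ.NewtonCI.old {f : Fin r → MvPolynomial (Fin N) ℂ} {x : Fin N → X.K}
    (h : X.NewtonCI f x) : NDQ.CI X.old f x :=
  ⟨h.dim, h.van, h.ne, h.gen, h.eqn, h.nondeg, h.interior⟩

/-- If the equations have no linear terms then the dimension of the affine space is less than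
`2 n`. -/
theorem Germ.NewtonCI.dim_le {f : Fin r → MvPolynomial (Fin N) ℂ} {x : Fin N → X.K}
    (h : X.NewtonCI f x) (hf : ∀ i, ∀ u ∈ (f i).support, 2 ≤ ∑ j, u j) : N ≤ 2 * n := by
  rcases Nat.eq_zero_or_pos N with h0 | h0
  · omega
  have h1 : (fun _ : Fin N => 1) ≠ 0 := fun h2 => by
    simpa using congrFun h2 ⟨0, h0⟩
  have h2 := h.interior (fun _ => 1) h1
  have h3 : ∀ i, 2 ≤ word (fun _ : Fin N => 1) (f i) := by
    intro i
    have h4 : (f i).support.Nonempty := by
      rw [Finset.nonempty_iff_ne_empty]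
      intro h5
      have h6 : initForm (fun _ => 1) (f i) = 0 := by
        simp only [initForm, h5, Finset.filter_empty, Finset.sum_empty]
      have h7 := h.nondeg (fun _ => 1) (fun _ => Nat.one_pos) {i} (fun _ => 1)
        (fun _ => one_ne_zero) (fun k hk => by
          rw [Finset.mem_singleton] at hk
          subst hk
          rw [h6, map_zero])
      have h8 := h7.ne_zero (⟨i, Finset.mem_singleton_self i⟩ : ({i} : Finset (Fin r)))
      exact h8 (funext fun j => by simp only [h6, map_zero, Pi.zero_apply])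
    have h5 : (wdeg (fun _ => 1) '' ((f i).support : Set (Fin N →₀ ℕ))).Nonempty := by
      obtain ⟨u, hu⟩ := h4
      exact ⟨_, u, hu, rfl⟩
    obtain ⟨u, hu, h6⟩ := Nat.sInf_mem h5
    have h7 := hf i u hu
    have h8 : wdeg (fun _ => 1) u = ∑ j, u j := by simp [wdeg]
    unfold word
    rw [← h6, h8]
    exact h7
  have h4 : ∑ _i : Fin r, 2 ≤ ∑ i, word (fun _ : Fin N => 1) (f i) :=
    Finset.sum_le_sum fun i _ => h3 i
  have h5 := h.dim
  simp only [Finset.sum_const, Finset.card_univ, Fintype.card_fin, smul_eq_mul, mul_one] at h2 h4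
  omega

theorem Triple.Newton.old {T : Triple X} {D : Set ℝ} {g : X.Aut} (h : T.Newton N D g) :
    ∃ N' ≤ max N (2 * n), ∃ (r : ℕ) (f : Fin r → MvPolynomial (Fin N') ℂ) (x : Fin N' → X.old.K)
        (c : Fin N' → ℂ) (b : Fin N' → ℝ) (M : T.old.J → Set (Fin N' →₀ ℕ)), NDQ.CI X.old f x ∧
        NDQ.Mono T.old x b M ∧ (∀ j, b j ≠ 0 → b j ∈ D) ∧ (∀ j, T.old.r j ≠ 0 → T.old.r j ∈ D) ∧
        (∀ j, g (x j) = algebraMap ℂ X.old.K (c j) * x j) ∧ NDQ.Semi f c := by
  obtain ⟨N', r, f, x, c, hN, h1, h2, h3, h4⟩ := h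
  obtain ⟨b, hb1, hb2⟩ := h2.boundary
  choose M hM using h2.ideals
  have h0 : N' ≤ max N (2 * n) := by
    rcases hN with h5 | h5
    · exact h5.trans (le_max_left _ _)
    · exact (h1.dim_le h5).trans (le_max_right _ _)
  refine ⟨N', h0, r, f, x, c, b, M, h1.old, ⟨fun j => (hb1 j).1, fun v P hP hv => ?_, hM⟩,
    fun j => (hb1 j).2, h2.exponents, h3, h4⟩
  have h5 := hb2 (ofOld v) P hP ((along_iff (ofOld v) P).1 hv)
  rw [← T.old_logDisc] at h5
  exact h5

theorem ndMld_subset (n N : ℕ) (D : Set ℝ) : ndMld n N D ⊆ NDQ.ndMld n (max N (2 * n)) D := by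
  rintro a ⟨X, Y, G, π, T, T', hQ, hC, hLC, hG, h⟩
  refine ⟨X.old, Y.old, G, π, T.old, T'.old, hQ.old, hC.old, T.old_lc.2 hLC, fun g hg => ?_, ?_⟩
  · rcases hG g hg with h1 | ⟨hE, hD, hT⟩
    · exact Or.inl h1.old
    · exact Or.inr ⟨T.old_effective.2 hE, (T.old_coeffIn D).2 hD, hT.old⟩
  · rw [T'.old_mld, h]

end

end MldX
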