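import Pool.Agent.MldX.Defs

/-!
# MP_fa3f7f_ag: quotients by finite groups and crepant pullbacks
-/

namespace MldX

noncomputable section

variable {n : ℕ}

/-! ### quotients -/

/-- Birational automorphisms of `X`, given by their action on the function field. -/
abbrev Germ.Aut (X : Germ n) : Type := X.K ≃ₐ[ℂ] X.K

/-- The automorphism maps regular functions to regular functions. -/
def Germ.Acts (X : Germ n) (g : X.Aut) : Prop := ∀ a ∈ X.R, g a ∈ X.R

/-- The function `a` is regular on `X` and vanishes at `x`. -/
def Germ.Vanishes (X : Germ n) (a : X.K) : Prop := ∃ b ∈ X.m, (b : X.K) = a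

/-- The automorphism maps the regular functions which vanish at `x` to such functions. -/
def Germ.Fixes (X : Germ n) (g : X.Aut) : Prop := ∀ a, X.Vanishes a → X.Vanishes (g a)

/-- A dominant rational map `X → Y`: a homomorphism of the function fields. -/
abbrev Map (X Y : Germ n) : Type := Y.K →ₐ[ℂ] X.K

variable {X Y : Germ n}

/-- The functions on `Y` are the functions on `X` which are invariant under `G`. -/
def FieldInv (G : Subgroup X.Aut) (π : Map X Y) : Prop :=
  ∀ a : X.K, (∃ b, π b = a) ↔ ∀ g ∈ G, g a = a

/-- The regular functions on `Y` are the functions on `Y` which are regular on `X`. -/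
def RingInv (π : Map X Y) : Prop := ∀ b : Y.K, b ∈ Y.R ↔ π b ∈ X.R

/-- A function on `Y` is regular and vanishes at `y` if and only if it is regular on `X` and vanishes
at `x`. -/
def PointInv (π : Map X Y) : Prop := ∀ b : Y.K, Y.Vanishes b ↔ X.Vanishes (π b)

/-- `Y = X / G`, `G` is a finite group of automorphisms of `X` which fix `x`, `y` is the image
of `x`. -/
structure IsQuot (G : Subgroup X.Aut) (π : Map X Y) : Prop where
  finite : Finite G
  acts : ∀ g ∈ G, X.Acts g
  fixes : ∀ g ∈ G, X.Fixes g
  field : FieldInv G π
  ring : RingInv π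
  point : PointInv π

/-! ### crepant pullbacks -/

/-- The divisor `w` over `X` lies over the divisor `v` over `Y`, with ramification index `e`. -/
def LiesOver (π : Map X Y) (w : DivVal n X.K) (v : DivVal n Y.K) (e : ℕ) : Prop :=
  0 < e ∧ ∀ b : Y.K, w.ord (π b) = e * v.ord b

/-- The order of `∏ 𝔞_j^{r_j}` along the divisor. -/
def Triple.idealPart (T : Triple X) (w : DivVal n X.K) : ℝ := ∑ j, T.r j * idealOrd w (T.a j)

/-- `w` is the order along a prime divisor `Q ∋ x` of `X`. -/
def Germ.IsPrimeDivisor (X : Germ n) (w : DivVal n X.K) : Prop := ∃ Q ≤ X.m, X.IsOrdAlong w Q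

/-- `(X, B, ∏ 𝔞_j^{r_j})` is the crepant pullback of `(Y, B', ∏ 𝔟_i^{s_i})` near `x`. -/
structure Crepant (π : Map X Y) (T : Triple X) (T' : Triple Y) : Prop where
  /-- `K_X + B` is the pullback of `K_Y + B'`: if a prime divisor of `X` through `x` has ramification
  index `e` and coefficient `b` in `B`, and its image has coefficient `b'` in `B'`, then
  `1 - b = e (1 - b')` -/
  divisor : ∀ w v e, LiesOver π w v e → X.IsPrimeDivisor w → T.logDisc w = e * T'.logDisc v
  /-- `∏ 𝔞_j^{r_j}` and the pullback of `∏ 𝔟_i^{s_i}` have the same order along every divisor over `X`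
  whose centre contains `x` -/
  ideals : ∀ w v e, LiesOver π w v e → X.Through w → T.idealPart w = e * T'.idealPart v

/-! ### tori -/

/-- The function `a` is regular on `X` and of weight `u`. -/
def TorusAction.Weight {m : ℕ} (A : TorusAction X m) (u : Fin m → ℤ) (a : X.K) : Prop :=
  ∃ b ∈ A.gr u, (b : X.K) = a

/-- The point `x` is an attractive fixed point: the invariant regular functions are constant, the
other semi-invariant regular functions vanish at `x`. -/
def TorusAction.Attractive {m : ℕ} (A : TorusAction X m) : Prop :=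
  (∀ a, A.Weight 0 a → ∃ c : ℂ, a = algebraMap ℂ X.K c) ∧
    ∀ u, u ≠ 0 → ∀ a, A.Weight u a → X.Vanishes a

/-- The automorphism `g` maps the functions of weight `u` to functions of weight `u'`. -/
def TorusAction.MapsTo {m : ℕ} (A : TorusAction X m) (g : X.Aut) (u u' : Fin m → ℤ) : Prop :=
  ∀ a, A.Weight u a → A.Weight u' (g a)

/-- The automorphism `g` normalises the torus. -/
def TorusAction.Normalised {m : ℕ} (A : TorusAction X m) (g : X.Aut) : Prop :=
  ∀ u, ∃ u', A.MapsTo g u u'

/-- The automorphism `g` normalises a torus of dimension `n` which acts on `X` with `x` as attractive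
fixed point and leaves the triple invariant. -/
def Triple.Toric (T : Triple X) (g : X.Aut) : Prop :=
  ∃ A : TorusAction X n, A.Attractive ∧ A.Normalised g ∧ A.InvTriple T

/-- The minimal log discrepancies of the triples `(y ∈ Y, B', ∏ 𝔟_i^{s_i})` of dimension `n` such that
`Y = X / G`, `G` finite, the crepant pullback `(x ∈ X, B, ∏ 𝔞_j^{r_j})` is log canonical, `B ≥ 0`,
the nonzero coefficients of `B` and the nonzero exponents `r_j` belong to `D`, and every element of
`G` normalises a torus of dimension `n` which acts on `X` with `x` as attractive fixed point and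
leaves the triple `(X, B, ∏ 𝔞_j^{r_j})` invariant. -/
def quotMld (n : ℕ) (D : Set ℝ) : Set ℝ :=
  {a | ∃ (X Y : Germ n) (G : Subgroup X.Aut) (π : Map X Y) (T : Triple X) (T' : Triple Y),
    IsQuot G π ∧ Crepant π T T' ∧ T.LC ∧ T.Effective ∧ T.CoeffIn D ∧ (∀ g ∈ G, T.Toric g) ∧
    T'.mld = a}

end

end MldX
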