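import Pool.Agent.MldX.Defs
import Pool.Agent.MldGap.Defs

/-!
# Toric pairs and quotient singularities: sets of minimal log discrepancies
-/

namespace MldX

open MvPolynomial MldGap

noncomputable section

variable {n : ℕ}

/-! ### coefficients -/

/-- The coefficients of `B` at the prime divisors through `x` are hyperstandard with respect to
`(1/q)ℤ ∩ [0,1]`: of the form `1 - (c/q)/m` with `0 ≤ c ≤ q` and `m ≥ 1`. For `q = 1` these are the
standard coefficients `1 - 1/m`, `m ∈ {1, 2, …, ∞}`. -/
def Triple.Hyperstandard {X : Germ n} (T : Triple X) (q : ℕ) : Prop :=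
  ∀ P b, T.Coeff P b → ∃ c m : ℕ, c ≤ q ∧ 0 < m ∧ b = 1 - (c : ℝ) / q / m

/-! ### quotients of affine space -/

/-- The polynomial `p(g x)`. -/
def linSubst (g : GL (Fin n) ℂ) : MvPolynomial (Fin n) ℂ →ₐ[ℂ] MvPolynomial (Fin n) ℂ :=
  aeval fun i => ∑ j, C ((g : Matrix (Fin n) (Fin n) ℂ) i j) * X j

/-- The polynomial is invariant under `G`. -/
def Invariant (G : Subgroup (GL (Fin n) ℂ)) (p : MvPolynomial (Fin n) ℂ) : Prop :=
  ∀ g ∈ G, linSubst g p = p

/-- The function vanishes at `x`. -/
def Germ.IsZero (X : Germ n) (a : X.R) : Prop := a ∈ X.m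

/-- The polynomial vanishes at the origin. -/
def VanishesAtZero (p : MvPolynomial (Fin n) ℂ) : Prop := constantCoeff p = 0

/-- The polynomial which corresponds to the regular function `a`. -/
def toPoly {X : Germ n} (φ : X.R →ₐ[ℂ] MvPolynomial (Fin n) ℂ) (a : X.R) :
    MvPolynomial (Fin n) ℂ := φ a

/-- `φ` identifies the ring of regular functions on `X` with the ring of the polynomials which are
invariant under `G`. -/
def IsInvIso (X : Germ n) (G : Subgroup (GL (Fin n) ℂ))
    (φ : X.R →ₐ[ℂ] MvPolynomial (Fin n) ℂ) : Prop :=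
  Function.Injective (toPoly φ) ∧ ∀ p, Invariant G p ↔ ∃ a, toPoly φ a = p

/-- The point `x` corresponds to the origin. -/
def AtOrigin (X : Germ n) (φ : X.R →ₐ[ℂ] MvPolynomial (Fin n) ℂ) : Prop :=
  ∀ a : X.R, X.IsZero a ↔ VanishesAtZero (toPoly φ a)

/-- `X` is the quotient `ℂⁿ / G` and `x` is the image of the origin. -/
def Germ.IsQuotient (X : Germ n) (G : Subgroup (GL (Fin n) ℂ)) : Prop :=
  ∃ φ : X.R →ₐ[ℂ] MvPolynomial (Fin n) ℂ, IsInvIso X G φ ∧ AtOrigin X φ

variable {X : Germ n}

/-- The pullback of `K_X + B` to `ℂⁿ` is `K_{ℂⁿ}` along the prime divisor `q = 0`: if the order of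
the polynomials along `q = 0` is `e` times the order along a prime divisor over `X` (its image), then
the log discrepancy of the image is `1 / e`. -/
def Triple.Crepant (T : Triple X) (φ : X.R →ₐ[ℂ] MvPolynomial (Fin n) ℂ)
    (q : MvPolynomial (Fin n) ℂ) : Prop :=
  ∀ (v : DivVal n X.K) (e : ℕ),
    (∀ a : X.R, (a : X.K) ≠ 0 → (multiplicity q (toPoly φ a) : ℤ) = e * v.ord a) →
      T.logDisc v * e = 1

/-- `(X, B)` is the log quotient `(ℂⁿ / G, B)` at the image `x` of the origin: there are no ideals,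
and `K_{ℂⁿ}` is the pullback of `K_X + B` along all prime divisors through the origin. -/
def Triple.IsLogQuotient (T : Triple X) (G : Subgroup (GL (Fin n) ℂ)) : Prop :=
  IsEmpty T.J ∧ ∃ φ : X.R →ₐ[ℂ] MvPolynomial (Fin n) ℂ, IsInvIso X G φ ∧ AtOrigin X φ ∧
    ∀ q, Irreducible q → VanishesAtZero q → T.Crepant φ q

/-! ### sets of minimal log discrepancies -/

/-- The minimal log discrepancies of the toric pairs `(X, B)` of dimension `n` at closed points `x`:
the torus of dimension `n` acts effectively on `X`, `B` is invariant, and its coefficients are of the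
form `1 - (c/q)/m` with `0 ≤ c ≤ q` and `m ≥ 1`. -/
def toricMlds (n q : ℕ) : Set ℝ :=
  {μ | ∃ (X : Germ n) (A : TorusAction X n) (T : Triple X), IsEmpty T.J ∧ A.InvTriple T ∧
    T.Hyperstandard q ∧ T.mld = μ}

/-- The minimal log discrepancies of the log quotients `(ℂⁿ / G, B)` at the image of the origin, `G`
a finite group of linear maps. -/
def quotientMlds (n : ℕ) : Set ℝ :=
  {μ | ∃ (G : Subgroup (GL (Fin n) ℂ)) (X : Germ n) (T : Triple X), Finite G ∧
    T.IsLogQuotient G ∧ T.mld = μ}

/-- The minimal log discrepancies of the isolated quotient singularities `ℂⁿ / G`, `G` a finite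
group of linear maps which acts freely on `ℂⁿ ∖ 0` (without boundary). -/
def isolatedQuotientMlds (n : ℕ) : Set ℝ :=
  {μ | ∃ (G : Subgroup (GL (Fin n) ℂ)) (X : Germ n) (T : Triple X), Finite G ∧ ActsFreely G ∧
    X.IsQuotient G ∧ IsEmpty T.J ∧ T.NoBoundary ∧ T.mld = μ}

end

end MldX
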