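import Pool.Agent.MldX.Nd

/-!
# MP_fa3f7f_ag: quotients by automorphisms which commute with a torus
-/

set_option autoImplicit false

namespace MldX

noncomputable section

variable {n : ℕ} {X : Germ n}

/-- The automorphism `g` commutes with a torus of dimension at least `n - 1` which acts on `X`
(`x` is any closed point) and leaves the triple invariant: `g` maps the functions of weight `u` to
functions of weight `u`. The ideals of the triple are generated by functions which are invariant
under `g`. -/
def Triple.Commuting (T : Triple X) (g : X.Aut) : Prop :=
  ∃ (m : ℕ) (A : TorusAction X m), n ≤ m + 1 ∧ (∀ u, A.MapsTo g u u) ∧ A.InvTriple T ∧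
    ∀ j, ∃ s : Set X.R, (∀ a ∈ s, g a = a) ∧ T.a j = Ideal.span s

/-- The minimal log discrepancies of the triples `(y ∈ Y, B', ∏ 𝔟_i^{s_i})` of dimension `n` such that
`Y = X / G`, `G` finite, the crepant pullback `(x ∈ X, B, ∏ 𝔞_j^{r_j})` is log canonical, and every
element `g` of `G` satisfies one of the following conditions. (1) `X` is near `x` a
nondegenerate complete intersection in an affine space with coordinates which are eigenfunctions of
`g`, with semi-invariant equations, and `B` and the ideals are monomial in these coordinates, with
coefficients and exponents in `D`; the dimension of the affine space is at most `N` or the equations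
have no linear terms. (2) `B ≥ 0`, the nonzero coefficients and exponents belong to `D`, and `g`
normalises a torus of dimension `n` which acts on `X` with `x` as attractive fixed point and leaves
the triple invariant. (3) `B ≥ 0`, the nonzero coefficients and exponents belong to `D`, `g` commutes
with a torus of dimension at least `n - 1` which acts on `X` and leaves the triple invariant, and the
ideals are generated by `g`-invariant functions. -/
def unMld (n N : ℕ) (D : Set ℝ) : Set ℝ :=
  {a | ∃ (X Y : Germ n) (G : Subgroup X.Aut) (π : Map X Y) (T : Triple X) (T' : Triple Y),
    IsQuot G π ∧ Crepant π T T' ∧ T.LC ∧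
    (∀ g ∈ G, T.Newton N D g ∨ (T.Effective ∧ T.CoeffIn D ∧ (T.Toric g ∨ T.Commuting g))) ∧
    T'.mld = a}

end

end MldX
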