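import Pool.Agent.MldX.Un
import Pool.Agent.MldX.NdBridge
import Pool.Agent.UNC.St

/-!
# Comparison of the two definitions of `unMld`
-/

set_option autoImplicit false

namespace MldX

noncomputable section

variable {n N : ℕ} {X : Germ n}

theorem Triple.Commuting.old {T : Triple X} {g : X.Aut} (h : T.Commuting g) :
    ∃ (m : ℕ) (A : MldG.TorusAction X.old m), n ≤ m + 1 ∧ A.InvTriple T.old ∧ UNC.Comm A g ∧
      UNC.InvGen T.old (Subgroup.zpowers g) := by
  obtain ⟨m, A, hm, hg, hI, hs⟩ := h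
  refine ⟨m, A.old, hm, (A.old_invTriple T).2 hI, fun u a b ha hb => ?_, fun j => ?_⟩
  · refine (weight_iff A u b).1 ?_
    rw [hb]
    exact hg u a ((weight_iff A u a).2 ha)
  · obtain ⟨s, h1, h2⟩ := hs j
    refine ⟨s, fun a ha k hk => ?_, h2⟩
    have h3 : Subgroup.zpowers g ≤ MulAction.stabilizer X.Aut (a : X.K) := by
      rw [Subgroup.zpowers_le]
      exact h1 a ha
    exact h3 hk

theorem unMld_subset (n N : ℕ) (D : Set ℝ) : unMld n N D ⊆ UNC.unMld n (max N (2 * n)) D := by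
  rintro a ⟨X, Y, G, π, T, T', hQ, hC, hLC, hG, h⟩
  refine ⟨X.old, Y.old, G, π, T.old, T'.old, hQ.old, hC.old, T.old_lc.2 hLC, fun g hg => ?_, ?_⟩
  · rcases hG g hg with h1 | ⟨hE, hD, hT | hT⟩
    · exact Or.inl h1.old
    · exact Or.inr ⟨T.old_effective.2 hE, (T.old_coeffIn D).2 hD, Or.inl hT.old⟩
    · exact Or.inr ⟨T.old_effective.2 hE, (T.old_coeffIn D).2 hD, Or.inr hT.old⟩
  · rw [T'.old_mld, h]

end

end MldX
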