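import Pool.Agent.MldX.XGAsm0
import Pool.Agent.XG.ASA
import Pool.Agent.XG.CLA
import Pool.Agent.XG.CLK
import Pool.Agent.XG.CLO
import Pool.Agent.XG.CODR
import Pool.Agent.XG.DIMB
import Pool.Agent.XG.EIGA
import Pool.Agent.XG.EIGM
import Pool.Agent.XG.FIC
import Pool.Agent.XG.FIX
import Pool.Agent.XG.LVL
import Pool.Agent.XG.LWX
import Pool.Agent.XG.PDR
import Pool.Agent.XG.QLZ
import Pool.Agent.XG.QTH
import Pool.Agent.XG.RFE
import Pool.Agent.XG.RFP
import Pool.Agent.XG.RFT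
import Pool.Agent.XG.SHP
import Pool.Agent.XG.TDT
import Pool.Agent.XG.TQG
import Pool.Agent.XG.TRVX
import Pool.Agent.XG.UPX

set_option autoImplicit false

/-!
# Crepant quotients of toric pairs: the theorems
-/

namespace XG

theorem c_LVL : Stmt_LVL := t_LVL (t_CLA t_CLO (t_CLK t_DIMB t_SHP) (t_EIGA t_EIGM))

theorem c_ASA : Stmt_ASA := t_ASA c_LVL

theorem c_LWX : Stmt_LWX :=
  t_LWX t_TDT t_QTH (t_QLZ t_EIGM) (t_CODR t_EIGM) t_RFP t_RFE

theorem c_UPX : Stmt_UPX := t_UPX t_QTH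

theorem c_FIX : Stmt_FIX := t_FIX t_TDT c_LWX c_UPX

theorem c_FIC : Stmt_FIC := t_FIC t_TDT c_LWX c_UPX (t_RFT t_RFE t_PDR)

end XG

namespace MldX

open MldGap

noncomputable section

variable {n : ℕ}

/-- The explicit gap below every rational level for crepant quotients. -/
theorem crepant_gap {n p q : ℕ} (hn : 0 < n) (hp : 0 < p) (hq : 0 < q)
    {μ : ℝ} (hμ : μ ∈ crepantMlds n q) (hlt : μ < (p : ℝ) / q) : μ ≤ levelBound n p q :=
  crepant_le XG.c_ASA hn hp hq hμ hlt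

/-- The sharp gaps below the integer levels for crepant quotients. -/
theorem crepant_sharp {l : ℕ} (hl : 1 ≤ l) (hln : l ≤ n) :
    IsGreatest {μ ∈ crepantMlds n 1 | μ < l}
      ((l : ℝ) - 1 / ((sylvester (n - l + 1) : ℝ) - 1)) :=
  crepant_greatest XG.c_ASA XG.t_TRVX hl hln

/-- The sharp gap below one for the total minimal log discrepancy of crepant quotients. -/
theorem crepantTotal_sharp (h2 : 2 ≤ n) (h4 : n ≤ 4) :
    IsGreatest {μ ∈ crepantTotalMlds n | μ < 1}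
      (1 - 4 / ((sylvester (n - 1) : ℝ) ^ 2 + 3)) :=
  crepantTotal_greatest XG.c_FIX XG.t_TRVX XG.t_TQG h2 h4

/-- The sharp gap below one without boundary, for crepant quotients. -/
theorem crepantFree_sharp (h2 : 2 ≤ n) (h4 : n ≤ 4) :
    IsGreatest {μ ∈ crepantFreeMlds n | μ < 1} (1 - 1 / (freeGap (n - 1) : ℝ)) :=
  crepantFree_greatest XG.c_FIC XG.t_TRVX XG.t_TQG h2 h4

/-- The same in every dimension, from the arithmetic core. -/
theorem crepantFree_sharp_of_core (h2 : 2 ≤ n)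
    (hcore : G5.Core n 1 (1 - 1 / (freeGap (n - 1) : ℝ))) :
    IsGreatest {μ ∈ crepantFreeMlds n | μ < 1} (1 - 1 / (freeGap (n - 1) : ℝ)) := by
  have h6 : G5.bd n 1 = 1 - 1 / (freeGap (n - 1) : ℝ) := by
    unfold G5.bd
    rw [Nat.cast_one]
  constructor
  · obtain ⟨h, w, a, h0, h1, h2', h3, h4'⟩ := G5.t_EXN n 1 h2 le_rfl (by omega)
    obtain ⟨G, hfin, hR, hd, hm⟩ := G5.t_EXG h w a h0 h1 h2' h3
    obtain ⟨X, hX⟩ := MldGeo.c_GEX G
    obtain ⟨T, hT⟩ := MldGeo.c_TEX G X (by omega) hX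
    obtain ⟨A⟩ := XG.t_TQG X G hX hd
    have hB := G5.t_NRB G T (by omega) hR hT
    have hm' : T.mld = G5.bd n 1 := by
      rw [MldGeo.c_MLQ G T (by omega) hT, hm, h4']
      rfl
    have h5 := (example_mem XG.t_TRVX X A T hT.1 hB).1
    rw [hm'] at h5
    have h7 := G5.bd_lt n 1
    rw [h6] at h5 h7
    rw [Nat.cast_one] at h7
    exact ⟨h5, h7⟩
  · rintro μ ⟨hμ, hlt⟩
    exact XG.c_FIC (by omega) hcore μ (crepantFreeMlds_subset n hμ) hlt

end

end MldX
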