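import Pool.Agent.XG.St
import Pool.Agent.MldX.QuotBridge
import Pool.Agent.MldX.G5Asm

set_option autoImplicit false

/-!
# Crepant quotients of toric pairs: assembly, from the statements of the modules
-/

namespace MldX

open MldGap

noncomputable section

variable {n : ℕ}

/-! ### comparison of the definitions -/

section

variable {X Y : Germ n} {G : Subgroup X.Aut} {π : Map X Y} {T : Triple X} {T' : Triple Y}

theorem IsToricQuot.old_toric (h : IsToricQuot G π T T') :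
    ∀ g ∈ G, ∃ A : MldGeo.TorusAction X.old n, A.Normal g ∧ A.InvTriple T.old :=
  fun g hg => (h.toric g hg).old

end

theorem crepantMlds_subset (n q : ℕ) : crepantMlds n q ⊆ XG.mlds n q := by
  rintro μ ⟨X, Y, G, π, T, T', h, hT, rfl⟩
  exact ⟨X.old, Y.old, G, π, T.old, T'.old, h.quot.old, h.crepant.old, h.empty, h.empty',
    (hyperstandard_iff T q).2 hT, h.old_toric, T'.old_mld⟩

theorem crepantFreeMlds_subset (n : ℕ) : crepantFreeMlds n ⊆ XG.cmlds n := by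
  rintro μ ⟨X, Y, G, π, T, T', h, hT, hT', rfl⟩
  refine ⟨X.old, Y.old, G, π, T.old, T'.old, h.quot.old, h.crepant.old, h.empty, h.empty',
    (T.old_noBoundary).2 hT, (T'.old_noBoundary).2 hT', fun g hg => ?_, T'.old_mld⟩
  obtain ⟨A, hA, -⟩ := h.old_toric g hg
  exact ⟨A, hA⟩

theorem crepantTotalMlds_subset (n : ℕ) : crepantTotalMlds n ⊆ XG.tmlds n := by
  rintro μ ⟨X, Y, G, π, T, T', h, hT, -, rfl⟩
  refine ⟨X.old, Y.old, G, π, T.old, T'.old, h.quot.old, h.crepant.old, h.empty, h.empty',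
    (T.old_noBoundary).2 hT, fun g hg => ?_, T'.old_totalMld⟩
  obtain ⟨A, hA, -⟩ := h.old_toric g hg
  exact ⟨A, hA⟩

/-- The torus action in the sense of `MldX`. -/
def ofGeoAction (X : MldGeo.Germ n) (A : MldGeo.TorusAction X n) :
    TorusAction (Germ.ofOld X) n :=
  TorusAction.ofOld (X := Germ.ofOld X) (MldG.ofGeo A)

theorem ofGeoAction_attractive (X : MldGeo.Germ n) (A : MldGeo.TorusAction X n) :
    (ofGeoAction X A).Attractive := by
  constructor
  · rintro a ⟨b, hb, rfl⟩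
    obtain ⟨c, hc⟩ := A.const b hb
    exact ⟨c, congrArg Subtype.val hc⟩
  · rintro u hu a ⟨b, hb, rfl⟩
    exact ⟨b, A.vanish u hu b hb, rfl⟩

/-! ### the gaps -/

theorem crepant_le (hASA : XG.Stmt_ASA) {n p q : ℕ} (hn : 0 < n) (hp : 0 < p) (hq : 0 < q)
    {μ : ℝ} (hμ : μ ∈ crepantMlds n q) (hlt : μ < (p : ℝ) / q) : μ ≤ levelBound n p q :=
  hASA hn hp hq μ (crepantMlds_subset n q hμ) hlt

theorem crepant_greatest (hASA : XG.Stmt_ASA) (hTRV : XG.Stmt_TRVX) {l : ℕ} (hl : 1 ≤ l)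
    (hln : l ≤ n) :
    IsGreatest {μ ∈ crepantMlds n 1 | μ < l}
      ((l : ℝ) - 1 / ((sylvester (n - l + 1) : ℝ) - 1)) := by
  constructor
  · obtain ⟨X, A, T, hJ, hA, hT, hm, hlt⟩ :=
      (MldGeo.toric_part2 MldGeo.c_TDG MldGeo.c_EXA hl hln).1
    refine ⟨?_, hlt⟩
    have h1 := (hTRV (Germ.ofOld X) (ofGeoAction X A) (Triple.ofOld (X := Germ.ofOld X) T)
      (ofGeoAction_attractive X A) hJ
      ((TorusAction.ofOld_invTriple (X := Germ.ofOld X) (MldG.ofGeo A) T).2 hA)).1 1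
      ((hyperstandard_iff _ 1).1 (by rw [Triple.old_ofOld]; exact hT))
    rw [Triple.ofOld_mld (X := Germ.ofOld X) T, hm] at h1
    exact h1
  · rintro μ ⟨hμ, hlt⟩
    have := crepant_le hASA (p := l) (q := 1) (by omega) (by omega) one_pos hμ
      (by simpa using hlt)
    rwa [levelBound_int n l hl hln] at this

/-- Germs without boundary with an attractive action. -/
theorem example_mem (hTRV : XG.Stmt_TRVX) (X : MldGeo.Germ n) (A : MldGeo.TorusAction X n)
    (T : MldGeo.Triple X) (hJ : IsEmpty T.J) (hB : T.NoBoundary) :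
    T.mld ∈ crepantFreeMlds n ∧ G4.tmld T ∈ crepantTotalMlds n := by
  have hA : (MldG.ofGeo A).InvTriple T :=
    ⟨fun P b h hb => absurd (hB P b h) hb, fun j => (hJ.false j).elim⟩
  have h1 := (hTRV (Germ.ofOld X) (ofGeoAction X A) (Triple.ofOld (X := Germ.ofOld X) T)
    (ofGeoAction_attractive X A) hJ
    ((TorusAction.ofOld_invTriple (X := Germ.ofOld X) (MldG.ofGeo A) T).2 hA)).2
    ((Triple.ofOld_noBoundary (X := Germ.ofOld X) T).2 hB)
  rw [Triple.ofOld_mld (X := Germ.ofOld X) T, Triple.ofOld_totalMld (X := Germ.ofOld X) T] at h1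
  exact h1

theorem crepantTotal_greatest (hFIX : XG.Stmt_FIX) (hTRV : XG.Stmt_TRVX) (hTQG : XG.Stmt_TQG)
    (h2 : 2 ≤ n) (h4 : n ≤ 4) :
    IsGreatest {μ ∈ crepantTotalMlds n | μ < 1}
      (1 - 4 / ((sylvester (n - 1) : ℝ) ^ 2 + 3)) := by
  constructor
  · obtain ⟨N, rfl⟩ : ∃ N, n = N + 2 := ⟨n - 2, by omega⟩
    obtain ⟨G, hfin, hF, hd, g, hg, hg1, hmin, he⟩ := G4.t_DFM N
    obtain ⟨X, hX⟩ := MldGeo.c_GEX G
    obtain ⟨T, hT⟩ := MldGeo.c_TEX G X (by omega) hX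
    obtain ⟨A⟩ := hTQG X G hX hd
    have hB : T.NoBoundary := (MldGeo.c_FRE G T (by omega) hF hX hT.1).2 hT
    have he' : Pool.Agent.Mld.age g = G4.bd (N + 2) := he
    have hm : G4.tmld T = G4.bd (N + 2) := by
      rw [← he']
      exact (G4.c_QTA G T (by omega) hT).2 g hg hg1 hmin (by rw [he']; exact G4.bd_lt _)
    have h1 := (example_mem hTRV X A T hT.1 hB).2
    rw [hm] at h1
    exact ⟨h1, G4.bd_lt _⟩
  · rintro μ ⟨hμ, hlt⟩
    exact hFIX (by omega) (G4.core_bd h2 h4) μ (crepantTotalMlds_subset n hμ) hlt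

theorem crepantFree_greatest (hFIC : XG.Stmt_FIC) (hTRV : XG.Stmt_TRVX) (hTQG : XG.Stmt_TQG)
    (h2 : 2 ≤ n) (h4 : n ≤ 4) :
    IsGreatest {μ ∈ crepantFreeMlds n | μ < 1} (1 - 1 / (freeGap (n - 1) : ℝ)) := by
  constructor
  · obtain ⟨h, w, a, h0, h1, h2', h3, h4'⟩ := G5.t_EXN n 1 h2 le_rfl (by omega)
    obtain ⟨G, hfin, hR, hd, hm⟩ := G5.t_EXG h w a h0 h1 h2' h3
    obtain ⟨X, hX⟩ := MldGeo.c_GEX G
    obtain ⟨T, hT⟩ := MldGeo.c_TEX G X (by omega) hX
    obtain ⟨A⟩ := hTQG X G hX hd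
    have hB := G5.t_NRB G T (by omega) hR hT
    have hm' : T.mld = G5.bd n 1 := by
      rw [MldGeo.c_MLQ G T (by omega) hT, hm, h4']
      rfl
    have h5 := (example_mem hTRV X A T hT.1 hB).1
    rw [hm'] at h5
    have h6 : G5.bd n 1 = 1 - 1 / (freeGap (n - 1) : ℝ) := by
      unfold G5.bd
      rw [Nat.cast_one]
    have h7 := G5.bd_lt n 1
    rw [h6] at h5 h7
    rw [Nat.cast_one] at h7
    exact ⟨h5, h7⟩
  · rintro μ ⟨hμ, hlt⟩
    have h6 : G5.bd n 1 = 1 - 1 / (freeGap (n - 1) : ℝ) := by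
      unfold G5.bd
      rw [Nat.cast_one]
    have h7 := hFIC (by omega) (G5.core_bd (n := n) (l := 1) le_rfl (by omega)) μ
      (crepantFreeMlds_subset n hμ) hlt
    rwa [h6] at h7

end

end MldX
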