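import Pool.Agent.MldX.Quot
import Pool.Agent.MldX.G4Defs

/-!
# Crepant quotients of toric pairs by finite groups: sets of minimal log discrepancies

`Y = X / G`, `G` a finite group of automorphisms of a normal affine variety `X` which fix a point `x`
over `y`, `(X, B)` the crepant pullback of `(Y, B')`, no ideals; every element of `G` normalises a torus
of dimension `n` which acts on `X` with `x` as attractive fixed point and leaves `B` invariant.
-/

namespace MldX

noncomputable section

/-- The pair `(Y, B')` is the crepant quotient of `(X, B)` by the finite group `G`, there are no ideals,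
and every element of `G` normalises a torus of dimension `n` which acts on `X` with `x` as attractive
fixed point and leaves `B` invariant. -/
structure IsToricQuot {n : ℕ} {X Y : Germ n} (G : Subgroup X.Aut) (π : Map X Y) (T : Triple X)
    (T' : Triple Y) : Prop where
  quot : IsQuot G π
  crepant : Crepant π T T'
  empty : IsEmpty T.J
  empty' : IsEmpty T'.J
  toric : ∀ g ∈ G, T.Toric g

/-- The minimal log discrepancies of the crepant quotients `(Y, B')` of the toric pairs `(X, B)` of
dimension `n` such that the coefficients of `B` are of the form `1 - (c/q)/m` with `0 ≤ c ≤ q` and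
`m ≥ 1`. -/
def crepantMlds (n q : ℕ) : Set ℝ :=
  {μ | ∃ (X Y : Germ n) (G : Subgroup X.Aut) (π : Map X Y) (T : Triple X) (T' : Triple Y),
    IsToricQuot G π T T' ∧ T.Hyperstandard q ∧ T'.mld = μ}

/-- The minimal log discrepancies of the quotients of toric singularities of dimension `n` by finite
groups without reflections: `B = 0`, `B' = 0`. -/
def crepantFreeMlds (n : ℕ) : Set ℝ :=
  {μ | ∃ (X Y : Germ n) (G : Subgroup X.Aut) (π : Map X Y) (T : Triple X) (T' : Triple Y),
    IsToricQuot G π T T' ∧ T.NoBoundary ∧ T'.NoBoundary ∧ T'.mld = μ}

/-- The total minimal log discrepancies of the quotients of toric singularities of dimension `n` by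
finite groups without reflections: `B = 0`, `B' = 0`. -/
def crepantTotalMlds (n : ℕ) : Set ℝ :=
  {μ | ∃ (X Y : Germ n) (G : Subgroup X.Aut) (π : Map X Y) (T : Triple X) (T' : Triple Y),
    IsToricQuot G π T T' ∧ T.NoBoundary ∧ T'.NoBoundary ∧ T'.totalMld = μ}

end

end MldX
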